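import Pool.Agent.P.MP_1206ce_ag.CM.Defs

/-! Block diagonal matrices and their singular value decomposition. -/

open scoped Topology ComplexOrder
open Filter Set

noncomputable section

namespace Pool.Agent.HK

namespace HD

variable {β I Ar τ : Type} [Fintype β] [DecidableEq β] [Fintype I] [DecidableEq I] [Fintype Ar]
  [DecidableEq Ar] [Fintype τ] [DecidableEq τ] (D : HD β I Ar τ)

variable {k₀ : β} {g h : Matrix β β ℂ}

theorem CM_blk_one : D.CMBlk 1 := fun k l h => by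
  by_contra e
  exact h (Matrix.one_apply_ne fun e' => e (e' ▸ rfl))

theorem CM_blk_diagonal (d : β → ℂ) : D.CMBlk (Matrix.diagonal d) := fun k l h => by
  by_contra e
  exact h (Matrix.diagonal_apply_ne d fun e' => e (e' ▸ rfl))

theorem CMBlk_zero {D : HD β I Ar τ} (hg : D.CMBlk g) {k l : β} (h : D.v k ≠ D.v l) : g k l = 0 :=
  by_contra fun e => h (hg k l e)

theorem CMBlk_of {D : HD β I Ar τ} (h : ∀ k l, D.v k ≠ D.v l → g k l = 0) : D.CMBlk g :=
  fun k l e => by_contra fun e' => e (h k l e')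

theorem CMBlk.mul {D : HD β I Ar τ} (hg : D.CMBlk g) (hh : D.CMBlk h) : D.CMBlk (g * h) := by
  intro k l e
  rw [Matrix.mul_apply] at e
  obtain ⟨j, -, hj⟩ := Finset.exists_ne_zero_of_sum_ne_zero e
  exact (hg k j (left_ne_zero_of_mul hj)).trans (hh j l (right_ne_zero_of_mul hj))

theorem CMBlk.add {D : HD β I Ar τ} (hg : D.CMBlk g) (hh : D.CMBlk h) : D.CMBlk (g + h) :=
  CMBlk_of fun k l e => by rw [Matrix.add_apply, CMBlk_zero hg e, CMBlk_zero hh e, add_zero]

theorem CMBlk.sub {D : HD β I Ar τ} (hg : D.CMBlk g) (hh : D.CMBlk h) : D.CMBlk (g - h) :=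
  CMBlk_of fun k l e => by rw [Matrix.sub_apply, CMBlk_zero hg e, CMBlk_zero hh e, sub_zero]

theorem CMBlk.smul {D : HD β I Ar τ} (hg : D.CMBlk g) (s : ℝ) : D.CMBlk (s • g) :=
  CMBlk_of fun k l e => by rw [Matrix.smul_apply, CMBlk_zero hg e, smul_zero]

theorem CMBlk.star {D : HD β I Ar τ} (hg : D.CMBlk g) : D.CMBlk (star g) :=
  CMBlk_of fun k l e => by rw [Matrix.star_apply, CMBlk_zero hg (Ne.symm e), star_zero]

theorem CMBlk_iff_comm : D.CMBlk g ↔ ∀ i, Matrix.diagonal (fun k => if D.v k = i then 1 else 0) * g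
    = g * Matrix.diagonal fun k => if D.v k = i then (1 : ℂ) else 0 := by
  constructor
  · intro hg i
    ext k l
    rw [Matrix.diagonal_mul, Matrix.mul_diagonal]
    by_cases e : D.v k = D.v l
    · rw [e, mul_comm]
    · rw [CMBlk_zero hg e, mul_zero, zero_mul]
  · intro hg
    refine CMBlk_of fun k l e => ?_
    have := congrFun (congrFun (hg (D.v k)) k) l
    rwa [Matrix.diagonal_mul, Matrix.mul_diagonal, if_pos rfl, if_neg (Ne.symm e), one_mul,
      mul_zero] at this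

theorem CMBlk.inv {D : HD β I Ar τ} (hg : D.CMBlk g) : D.CMBlk g⁻¹ := by
  by_cases hd : IsUnit g.det
  · rw [CMBlk_iff_comm] at hg ⊢
    intro i
    have h := hg i
    generalize (Matrix.diagonal fun k => if D.v k = i then (1 : ℂ) else 0) = E at h ⊢
    calc E * g⁻¹ = g⁻¹ * (g * E) * g⁻¹ := by rw [Matrix.nonsing_inv_mul_cancel_left _ _ hd]
      _ = g⁻¹ * E := by
        rw [← h, ← Matrix.mul_assoc, Matrix.mul_nonsing_inv_cancel_right _ _ hd]
  · rw [Matrix.nonsing_inv_apply_not_isUnit _ hd]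
    exact CMBlk_of fun _ _ _ => rfl

theorem CM_isClosed_blk : IsClosed {g : Matrix β β ℂ | D.CMBlk g} := by
  have e : {g : Matrix β β ℂ | D.CMBlk g}
      = ⋂ k, ⋂ l, ⋂ _ : D.v k ≠ D.v l, {g : Matrix β β ℂ | g k l = 0} := by
    ext g
    simp only [mem_iInter]
    exact ⟨fun h k l e => CMBlk_zero h e, CMBlk_of⟩
  rw [e]
  exact isClosed_iInter fun k => isClosed_iInter fun l => isClosed_iInter fun _ =>
    isClosed_eq (continuous_id.matrix_elem k l) continuous_const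

theorem CMBlk.mul_single {D : HD β I Ar τ} (hs : ∀ l, D.v l = D.v k₀ → l = k₀) (hg : D.CMBlk g)
    (h : Matrix β β ℂ) :
    (g * h) k₀ k₀ = g k₀ k₀ * h k₀ k₀ ∧ (h * g) k₀ k₀ = h k₀ k₀ * g k₀ k₀ := by
  rw [Matrix.mul_apply, Matrix.mul_apply]
  refine ⟨Finset.sum_eq_single k₀ (fun l _ hl => ?_) (by simp),
    Finset.sum_eq_single k₀ (fun l _ hl => ?_) (by simp)⟩
  · rw [CMBlk_zero hg fun e => hl (hs l e.symm), zero_mul]
  · rw [CMBlk_zero hg fun e => hl (hs l e), mul_zero]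

theorem CMBlk.inv_single {D : HD β I Ar τ} (hs : ∀ l, D.v l = D.v k₀ → l = k₀) (hg : D.CMBlk g)
    (hd : g.det ≠ 0) : g⁻¹ k₀ k₀ = (g k₀ k₀)⁻¹ := by
  have h := (hg.mul_single hs g⁻¹).1
  rw [Matrix.mul_nonsing_inv _ (isUnit_iff_ne_zero.2 hd), Matrix.one_apply_eq] at h
  exact eq_inv_of_mul_eq_one_right h.symm

theorem CM_one_mem : (1 : Matrix β β ℂ) ∈ D.CMG k₀ :=
  ⟨D.CM_blk_one, by rw [Matrix.det_one]; exact one_ne_zero, by rw [Matrix.one_apply_eq, norm_one]⟩

theorem CM_mul_mem (hs : ∀ l, D.v l = D.v k₀ → l = k₀) (hg : g ∈ D.CMG k₀) (hh : h ∈ D.CMG k₀) :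
    g * h ∈ D.CMG k₀ :=
  ⟨hg.1.mul hh.1, by rw [Matrix.det_mul]; exact mul_ne_zero hg.2.1 hh.2.1,
    by rw [(hg.1.mul_single hs h).1, norm_mul, hg.2.2, hh.2.2, one_mul]⟩

theorem CM_inv_mem (hs : ∀ l, D.v l = D.v k₀ → l = k₀) (hg : g ∈ D.CMG k₀) : g⁻¹ ∈ D.CMG k₀ :=
  ⟨hg.1.inv, (Matrix.isUnit_nonsing_inv_det _ (isUnit_iff_ne_zero.2 hg.2.1)).ne_zero,
    by rw [hg.1.inv_single hs hg.2.1, norm_inv, hg.2.2, inv_one]⟩

theorem CMBlk_unit_det (hu : g ∈ Matrix.unitaryGroup β ℂ) : g.det ≠ 0 := by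
  have h := congrArg Matrix.det (Matrix.mem_unitaryGroup_iff.1 hu)
  rw [Matrix.det_mul, Matrix.det_one] at h
  exact left_ne_zero_of_mul_eq_one h

theorem CM_unit_mem (hs : ∀ l, D.v l = D.v k₀ → l = k₀) (hb : D.CMBlk g)
    (hu : g ∈ Matrix.unitaryGroup β ℂ) : g ∈ D.CMG k₀ := by
  refine ⟨hb, CMBlk_unit_det hu, ?_⟩
  have h := (hb.mul_single hs (star g)).1
  rw [Matrix.mem_unitaryGroup_iff.1 hu, Matrix.one_apply_eq, Matrix.star_apply] at h
  have h' := congrArg norm h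
  rw [norm_one, norm_mul, norm_star] at h'
  nlinarith [norm_nonneg (g k₀ k₀)]

theorem CMBlk_dg_det (a : β → ℝ) : (CMdg a).det ≠ 0 := by
  rw [CMdg, Matrix.det_diagonal]
  exact Finset.prod_ne_zero_iff.2 fun k _ => Complex.ofReal_ne_zero.2 (Real.exp_ne_zero _)

theorem CM_dg_mem {a : β → ℝ} : CMdg a ∈ D.CMG k₀ ↔ a k₀ = 0 := by
  have e : ‖CMdg a k₀ k₀‖ = Real.exp (a k₀) := by
    rw [CMdg, Matrix.diagonal_apply_eq, Complex.norm_real, Real.norm_of_nonneg (Real.exp_pos _).le]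
  refine ⟨fun h => ?_, fun h => ⟨D.CM_blk_diagonal _, CMBlk_dg_det a, ?_⟩⟩
  · exact (Real.exp_eq_one_iff _).1 (e ▸ h.2.2)
  · rw [e, h, Real.exp_zero]

theorem CM_dg_add (a b : β → ℝ) : CMdg (a + b) = CMdg a * CMdg b := by
  simp only [CMdg, Matrix.diagonal_mul_diagonal, Pi.add_apply, Real.exp_add, Complex.ofReal_mul]

theorem CM_dg_zero : CMdg (0 : β → ℝ) = 1 := by
  simp only [CMdg, Pi.zero_apply, Real.exp_zero, Complex.ofReal_one, Matrix.diagonal_one]

theorem CM_dg_star (a : β → ℝ) : star (CMdg a) = CMdg a := by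
  rw [CMdg, Matrix.star_eq_conjTranspose, Matrix.diagonal_conjTranspose]
  congr 1
  funext k
  exact Complex.conj_ofReal _

theorem CM_dg_inv (a : β → ℝ) : (CMdg a)⁻¹ = CMdg (-a) :=
  Matrix.inv_eq_right_inv (by rw [← CM_dg_add, add_neg_cancel, CM_dg_zero])

theorem CM_dg_det (a : β → ℝ) : (CMdg a).det ≠ 0 := CMBlk_dg_det a

theorem CM_continuous_dg : Continuous (CMdg : (β → ℝ) → Matrix β β ℂ) :=
  Continuous.matrix_diagonal (continuous_pi fun k =>
    Complex.continuous_ofReal.comp (Real.continuous_exp.comp (continuous_apply k)))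

/-- The block unitary group is compact. -/
theorem CM_isCompact_unit :
    IsCompact {k : Matrix β β ℂ | k ∈ Matrix.unitaryGroup β ℂ ∧ D.CMBlk k} := by
  have h : IsCompact (univ.pi fun _ : β => univ.pi fun _ : β => Metric.closedBall (0 : ℂ) 1) :=
    isCompact_univ_pi fun _ => isCompact_univ_pi fun _ => isCompact_closedBall _ _
  have hc : IsClosed {k : Matrix β β ℂ | k ∈ Matrix.unitaryGroup β ℂ} := by
    simp only [Matrix.mem_unitaryGroup_iff]
    exact isClosed_eq (continuous_id.matrix_mul continuous_id.matrix_conjTranspose)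
      continuous_const
  exact IsCompact.of_isClosed_subset (X := Matrix β β ℂ) h (hc.inter D.CM_isClosed_blk)
    fun k hk i _ j _ => mem_closedBall_zero_iff.2 (entry_norm_bound_of_unitary hk.1 i j)

/-- The block diagonal matrix with given blocks. -/
def CMBlk_glue (f : ∀ i, Matrix {a // D.v a = i} {a // D.v a = i} ℂ) : Matrix β β ℂ :=
  (Matrix.blockDiagonal' f).submatrix (Equiv.sigmaFiberEquiv D.v).symm
    (Equiv.sigmaFiberEquiv D.v).symm

theorem CMBlk_glue_blk (f : ∀ i, Matrix {a // D.v a = i} {a // D.v a = i} ℂ) :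
    D.CMBlk (D.CMBlk_glue f) :=
  CMBlk_of fun _ _ e => Matrix.blockDiagonal'_apply_ne f _ _ e

theorem CMBlk_glue_mul (f f' : ∀ i, Matrix {a // D.v a = i} {a // D.v a = i} ℂ) :
    D.CMBlk_glue f * D.CMBlk_glue f' = D.CMBlk_glue fun i => f i * f' i := by
  rw [CMBlk_glue, CMBlk_glue, Matrix.submatrix_mul_equiv, ← Matrix.blockDiagonal'_mul, CMBlk_glue]

theorem CMBlk_glue_star (f : ∀ i, Matrix {a // D.v a = i} {a // D.v a = i} ℂ) :
    star (D.CMBlk_glue f) = D.CMBlk_glue fun i => star (f i) := by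
  rw [CMBlk_glue, Matrix.star_eq_conjTranspose, Matrix.conjTranspose_submatrix,
    Matrix.blockDiagonal'_conjTranspose]
  rfl

theorem CMBlk_glue_diagonal (d : ∀ i, {a // D.v a = i} → ℂ) :
    D.CMBlk_glue (fun i => Matrix.diagonal (d i)) = Matrix.diagonal fun a => d (D.v a) ⟨a, rfl⟩ := by
  rw [CMBlk_glue, Matrix.blockDiagonal'_diagonal, Matrix.submatrix_diagonal_equiv]
  rfl

theorem CMBlk_glue_self {D : HD β I Ar τ} (hg : D.CMBlk g) :
    D.CMBlk_glue (fun i => g.toSquareBlock D.v i) = g := by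
  have e : (Matrix.blockDiagonal' fun i => g.toSquareBlock D.v i)
      = g.submatrix (Equiv.sigmaFiberEquiv D.v) (Equiv.sigmaFiberEquiv D.v) := by
    ext ⟨i, a⟩ ⟨j, b⟩
    by_cases h : i = j
    · subst h
      rw [Matrix.blockDiagonal'_apply_eq]
      rfl
    · rw [Matrix.blockDiagonal'_apply_ne _ _ _ h]
      exact (CMBlk_zero hg (k := a.1) (l := b.1) (by rwa [a.2, b.2])).symm
  rw [CMBlk_glue, e, Matrix.submatrix_submatrix, Equiv.self_comp_symm, Matrix.submatrix_id_id]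

/-- Spectral theorem for block diagonal Hermitian matrices. -/
theorem CM_spectral {p : Matrix β β ℂ} (hb : D.CMBlk p) (hp : p.IsHermitian) :
    ∃ (k : Matrix β β ℂ) (d : β → ℝ), k ∈ Matrix.unitaryGroup β ℂ ∧ D.CMBlk k ∧
      k * p * star k = Matrix.diagonal fun i => (d i : ℂ) := by
  have hH : ∀ i, (p.toSquareBlock D.v i).IsHermitian := fun i => hp.submatrix _
  have hU : ∀ i, star ((hH i).eigenvectorUnitary : Matrix _ _ ℂ) * p.toSquareBlock D.v i *
      star (star ((hH i).eigenvectorUnitary : Matrix _ _ ℂ))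
      = Matrix.diagonal fun a => (((hH i).eigenvalues a : ℝ) : ℂ) := fun i => by
    have := (hH i).conjStarAlgAut_star_eigenvectorUnitary
    rw [Unitary.conjStarAlgAut_star_apply] at this
    rw [star_star]
    exact this
  refine ⟨D.CMBlk_glue fun i => star ((hH i).eigenvectorUnitary : Matrix _ _ ℂ),
    fun a => (hH (D.v a)).eigenvalues ⟨a, rfl⟩, ?_, D.CMBlk_glue_blk _, ?_⟩
  · rw [Matrix.mem_unitaryGroup_iff, CMBlk_glue_star, CMBlk_glue_mul]
    simp only [star_star, Unitary.coe_star_mul_self]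
    exact (D.CMBlk_glue_diagonal fun _ _ => 1).trans Matrix.diagonal_one
  · refine (congrArg (fun q => _ * q * _) (CMBlk_glue_self hb).symm).trans ?_
    rw [CMBlk_glue_star, CMBlk_glue_mul, CMBlk_glue_mul]
    simp only [hU]
    exact D.CMBlk_glue_diagonal _

/-- Singular value decomposition. -/
theorem CM_svd (hb : D.CMBlk g) (hd : g.det ≠ 0) :
    ∃ (k k' : Matrix β β ℂ) (a : β → ℝ), k ∈ Matrix.unitaryGroup β ℂ ∧ D.CMBlk k ∧
      k' ∈ Matrix.unitaryGroup β ℂ ∧ D.CMBlk k' ∧ g = k' * CMdg a * k := by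
  obtain ⟨k, d, hk, hkb, hkd⟩ := D.CM_spectral (hb.star.mul hb)
    (Matrix.isHermitian_conjTranspose_mul_self g)
  have hm : star (g * star k) * (g * star k) = Matrix.diagonal fun i => (d i : ℂ) := by
    rw [← hkd, star_mul, star_star]
    simp only [Matrix.mul_assoc]
  have hu : IsUnit (g * star k) := by
    rw [Matrix.isUnit_iff_isUnit_det, Matrix.det_mul]
    exact isUnit_iff_ne_zero.2 (mul_ne_zero hd (CMBlk_unit_det (Unitary.star_mem hk)))
  have hpd := Matrix.PosDef.conjTranspose_mul_self _ (Matrix.mulVec_injective_of_isUnit hu)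
  rw [← Matrix.star_eq_conjTranspose, hm, Matrix.posDef_diagonal_iff] at hpd
  have hpos : ∀ i, 0 < d i := fun i => Complex.zero_lt_real.1 (hpd i)
  have he : (Matrix.diagonal fun i => (d i : ℂ))
      = CMdg ((fun i => Real.log (d i) / 2) + fun i => Real.log (d i) / 2) := by
    simp only [CMdg, Pi.add_apply, add_halves, Real.exp_log (hpos _)]
  generalize (fun i => Real.log (d i) / 2) = a at he
  refine ⟨k, g * star k * CMdg (-a), a, hk, hkb, ?_,
    (hb.mul hkb.star).mul (D.CM_blk_diagonal _), ?_⟩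
  · rw [Matrix.mem_unitaryGroup_iff', star_mul, CM_dg_star, Matrix.mul_assoc,
      ← Matrix.mul_assoc (star _), hm, he, ← CM_dg_add, ← CM_dg_add, ← CM_dg_zero]
    congr 1
    abel
  · rw [Matrix.mul_assoc (g * star k), ← CM_dg_add, neg_add_cancel, CM_dg_zero, Matrix.mul_one,
      Matrix.mul_assoc, Matrix.mem_unitaryGroup_iff'.1 hk, Matrix.mul_one]

theorem CM_svd_mem (hs : ∀ l, D.v l = D.v k₀ → l = k₀) (hg : g ∈ D.CMG k₀) :
    ∃ (k k' : Matrix β β ℂ) (a : β → ℝ), k ∈ Matrix.unitaryGroup β ℂ ∧ D.CMBlk k ∧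
      k' ∈ Matrix.unitaryGroup β ℂ ∧ D.CMBlk k' ∧ a k₀ = 0 ∧ g = k' * CMdg a * k := by
  obtain ⟨k, k', a, hk, hkb, hk', hkb', e⟩ := D.CM_svd hg.1 hg.2.1
  refine ⟨k, k', a, hk, hkb, hk', hkb', D.CM_dg_mem.1 ⟨D.CM_blk_diagonal _, CM_dg_det a, ?_⟩, e⟩
  have h := hg.2.2
  rwa [e, (hkb.mul_single hs _).2, (hkb'.mul_single hs _).1, norm_mul, norm_mul,
    (D.CM_unit_mem hs hkb hk).2.2, (D.CM_unit_mem hs hkb' hk').2.2, one_mul, mul_one] at h

end HD

end Pool.Agent.HK
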