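import Pool.Agent.P.MP_1206ce_ag.HG.Schur
import Pool.Agent.P.MP_1206ce_ag.AH.Link

/-! Comparison with the Borel construction of the quiver variety: definitions. -/

open scoped Topology ComplexOrder
open Filter Set

noncomputable section

namespace Pool.Agent.HK

namespace HD

variable {β I Ar τ : Type} [Fintype β] [DecidableEq β] [Fintype I] [DecidableEq I] [Fintype Ar]
  [DecidableEq Ar] [Fintype τ] [DecidableEq τ] (D : HD β I Ar τ)

/-- Block diagonal matrices. -/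
def CMBlk (g : Matrix β β ℂ) : Prop := ∀ k l, g k l ≠ 0 → D.v k = D.v l

/-- Invertible block diagonal matrices whose entry at `k₀` has norm one. -/
def CMG (k₀ : β) : Set (Matrix β β ℂ) := {g | D.CMBlk g ∧ g.det ≠ 0 ∧ ‖g k₀ k₀‖ = 1}

/-- Conjugation. -/
def CMcj (g : Matrix β β ℂ) (x : UU β Ar) : UU β Ar := fun γ => g * x γ * g⁻¹

/-- On the doubled quiver `y` is the conjugate of `x` by `g`, up to scalars of norm one. -/
def CMRel (g : Matrix β β ℂ) (x y : UU β Ar) : Prop :=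
  ∃ c : Ar ⊕ Ar → ℂ, (∀ γ, ‖c γ‖ = 1) ∧ ∀ γ, y (some γ) * g = c γ • (g * x (some γ))

/-- The logarithm of the absolute value of the character given by `th`. -/
def CMlch (th : I → ℤ) (g : Matrix β β ℂ) : ℝ :=
  ∑ i, (th i : ℝ) * Real.log ‖(g.toSquareBlock D.v i).det‖

/-- The squared norm of the doubled part. -/
def CMnsq (x : UU β Ar) : ℝ := ∑ γ : Ar ⊕ Ar, ∑ k, ∑ l, ‖x (some γ) k l‖ ^ 2

/-- The Kempf-Ness function. -/
def CMkn (th : I → ℤ) (x : UU β Ar) (g : Matrix β β ℂ) : ℝ :=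
  CMnsq (CMcj g x) + 2 * D.CMlch th g

/-- Positive diagonal matrices. -/
def CMdg (a : β → ℝ) : Matrix β β ℂ := Matrix.diagonal fun k => ((Real.exp (a k) : ℝ) : ℂ)

/-- `g` minimises the Kempf-Ness function of `x`. -/
def CMMin (th : I → ℤ) (k₀ : β) (x : UU β Ar) (g : Matrix β β ℂ) : Prop :=
  g ∈ D.CMG k₀ ∧ ∀ g' ∈ D.CMG k₀, D.CMkn th x g ≤ D.CMkn th x g'

/-- A continuous gauge fixing on the stable points. -/
structure IsGauge (th : I → ℤ) (k₀ : β) (ρ : UU β Ar → Matrix β β ℂ) : Prop where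
  cont : ContinuousOn ρ (D.Xs th)
  pos : ∀ x ∈ D.Xs th, (ρ x).PosDef
  blk : ∀ x ∈ D.Xs th, D.CMBlk (ρ x)
  one : ∀ x ∈ D.Xs th, ρ x k₀ k₀ = 1
  unit : ∀ x ∈ D.Xs th, ∀ y ∈ D.Xs th, ∀ g ∈ D.CMG k₀, CMRel g x y →
    ρ y * g * (ρ x)⁻¹ ∈ Matrix.unitaryGroup β ℂ
  conj : ∀ x ∈ D.Xs th, ∀ y ∈ D.Xs th, ∀ g ∈ D.CMG k₀, g ∈ Matrix.unitaryGroup β ℂ →
    CMRel g x y → ρ y = g * ρ x * star g

end HD

namespace Qv

variable (Q : Qv)

/-- The frozen variables `ħ`, `b`, `x_∞`. -/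
abbrev fr3 : Set Q.HV :=
  insert (Sum.inl none) (insert (Sum.inr (some 0)) (insert (Sum.inr none) ∅))

/-- The group `K_G × F`. -/
abbrev K3 : Set (Matrix Q.HV Q.HV ℂ) := KF Q.hd.lab0 Q.fr3

/-- The comparison map. -/
def Phi : Bor Q.K3 Q.hd.act → Q.YM :=
  bmp Q.FF Q.actM fun p => (Quot.mk _ (fun h => p.1 (some (Sum.inl h)),
    fun h => p.1 (some (Sum.inr h))), fun j a => p.2 j (Q.inc (Sum.inr a)))

/-- Representations of the tripled quiver. -/
abbrev CMU : Type := HD.UU (Option (Fin Q.nB)) (Fin Q.nA)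

/-- Matrices for the flavour torus. -/
abbrev CMT : Type := Matrix (Fin Q.nT) (Fin Q.nT) ℂ

/-- The doubled part. -/
def CMprs (x : Q.CMU) : Q.Arr × Q.Arr :=
  (fun h => x (some (Sum.inl h)), fun h => x (some (Sum.inr h)))

/-- Extension by the zero loop. -/
def CMex (p : Q.Arr × Q.Arr) : Q.CMU := fun γ => γ.elim 0 (Sum.elim p.1 p.2)

/-- The orbit of a pair. -/
def CMomk (p : Q.Arr × Q.Arr) : Q.Orb := Quot.mk _ p

/-- The flavour torus acts on pairs. -/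
def CMscl (t : Q.CMT) (p : Q.Arr × Q.Arr) : Q.Arr × Q.Arr :=
  (fun h => Q.chi (fun a => t a a) h • p.1 h, fun h => (Q.chi (fun a => t a a) h)⁻¹ • p.2 h)

/-- The flavour columns of a frame. -/
def CMres (e : Fr Q.HV) : Fr (Fin Q.nT) := fun j a => e j (Q.inc (Sum.inr a))

/-- Extension of a flavour frame by zero columns. -/
def CMext (e : Fr (Fin Q.nT)) : Fr Q.HV := fun j =>
  Sum.elim 0 fun o => o.elim 0 (Fin.cons 0 (e j) : Fin (Q.nT + 1) → ℂ)

/-- The flavour part of a matrix. -/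
def CMresM (u : Matrix Q.HV Q.HV ℂ) : Q.CMT :=
  u.submatrix (fun a => Q.inc (Sum.inr a)) fun a => Q.inc (Sum.inr a)

/-- The element of `K3` with given gauge part and flavour part. -/
def CMmkU (g : Q.Mat) (t : Q.CMT) : Matrix Q.HV Q.HV ℂ :=
  Matrix.fromBlocks g 0 0 (Matrix.diagonal fun o =>
    o.elim 1 (Fin.cons 1 (fun a => t a a) : Fin (Q.nT + 1) → ℂ))

/-- Flavour frames inside the large frames. -/
def CMEF (n : ℕ) : Set (Fr Q.HV) := Q.CMext '' St id n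

/-- The map of pairs that induces `Phi`. -/
def CMPhiP (p : Q.CMU × Fr Q.HV) : Q.Orb × Fr (Fin Q.nT) := (Q.CMomk (Q.CMprs p.1), Q.CMres p.2)

/-- Forgetting the columns that do not belong to the flavour torus. -/
def CMprj : Bor Q.K3 Q.hd.act → Bor Q.K3 Q.hd.act :=
  bmp Q.K3 Q.hd.act (Prod.map id (Q.CMext ∘ Q.CMres))

theorem CM_Phi_eq : Q.Phi = bmp Q.FF Q.actM Q.CMPhiP := rfl

end Qv

end Pool.Agent.HK
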