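import Pool.Agent.P.MP_1206ce_ag.CM.Blk

/-! The character, the norm and the Kempf-Ness function. -/

open scoped Topology ComplexOrder
open Filter Set

noncomputable section

namespace Pool.Agent.HK

namespace HD

variable {β I Ar τ : Type} [Fintype β] [DecidableEq β] [Fintype I] [DecidableEq I] [Fintype Ar]
  [DecidableEq Ar] [Fintype τ] [DecidableEq τ] (D : HD β I Ar τ)

variable {th : I → ℤ} {g h : Matrix β β ℂ} {x y : UU β Ar}

theorem CMFun_blk_mul (hg : D.CMBlk g) (h : Matrix β β ℂ) (i : I) :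
    (g * h).toSquareBlock D.v i = g.toSquareBlock D.v i * h.toSquareBlock D.v i := by
  ext k l
  rw [Matrix.mul_apply]
  change (g * h) k.1 l.1 = ∑ m : {a // D.v a = i}, g k.1 m.1 * h m.1 l.1
  rw [Matrix.mul_apply, ← Finset.sum_subtype (Finset.univ.filter fun a => D.v a = i)
    (p := fun a => D.v a = i) (by simp) fun m => g k.1 m * h m l.1]
  refine (Finset.sum_subset (Finset.filter_subset _ _) fun m _ hm => ?_).symm
  have h0 : g k.1 m = 0 := by
    by_contra h1
    exact hm (Finset.mem_filter.2 ⟨Finset.mem_univ _, (hg _ _ h1).symm.trans k.2⟩)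
  rw [h0, zero_mul]

theorem CMFun_blk_one (i : I) : (1 : Matrix β β ℂ).toSquareBlock D.v i = 1 := by
  ext k l
  change (1 : Matrix β β ℂ) k.1 l.1 = _
  simp only [Matrix.one_apply, Subtype.ext_iff]

theorem CMFun_det_ne (hg : D.CMBlk g) (hd : g.det ≠ 0) (i : I) :
    (g.toSquareBlock D.v i).det ≠ 0 := by
  have h1 := congrArg Matrix.det (D.CMFun_blk_mul hg g⁻¹ i)
  rw [Matrix.mul_nonsing_inv _ (isUnit_iff_ne_zero.2 hd), CMFun_blk_one, Matrix.det_one,
    Matrix.det_mul] at h1
  exact left_ne_zero_of_mul_eq_one h1.symm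

theorem CM_lch_mul (hg : D.CMBlk g) (hd : g.det ≠ 0) (hh : D.CMBlk h) (hd' : h.det ≠ 0) :
    D.CMlch th (g * h) = D.CMlch th g + D.CMlch th h := by
  rw [CMlch, CMlch, CMlch, ← Finset.sum_add_distrib]
  refine Finset.sum_congr rfl fun i _ => ?_
  rw [D.CMFun_blk_mul hg, Matrix.det_mul, norm_mul, Real.log_mul
    (norm_ne_zero_iff.2 (D.CMFun_det_ne hg hd i)) (norm_ne_zero_iff.2 (D.CMFun_det_ne hh hd' i)),
    mul_add]

theorem CM_lch_unit (hg : D.CMBlk g) (hu : g ∈ Matrix.unitaryGroup β ℂ) : D.CMlch th g = 0 := by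
  refine Finset.sum_eq_zero fun i _ => ?_
  have h1 := congrArg Matrix.det (D.CMFun_blk_mul hg (star g) i)
  have h2 : (star g).toSquareBlock D.v i = star (g.toSquareBlock D.v i) := rfl
  rw [Matrix.mem_unitaryGroup_iff.1 hu, CMFun_blk_one, Matrix.det_one, Matrix.det_mul, h2,
    Matrix.star_eq_conjTranspose, Matrix.det_conjTranspose] at h1
  have h3 := congrArg norm h1
  rw [norm_one, norm_mul, norm_star] at h3
  have h4 : ‖(g.toSquareBlock D.v i).det‖ = 1 := by
    nlinarith [norm_nonneg (g.toSquareBlock D.v i).det]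
  rw [h4, Real.log_one, mul_zero]

theorem CM_lch_dg (a : β → ℝ) : D.CMlch th (CMdg a) = ∑ k, (th (D.v k) : ℝ) * a k := by
  rw [CMlch, ← Finset.sum_fiberwise Finset.univ D.v]
  refine Finset.sum_congr rfl fun i _ => ?_
  have h1 : (CMdg a).toSquareBlock D.v i =
      Matrix.diagonal fun k : {a // D.v a = i} => ((Real.exp (a k.1) : ℝ) : ℂ) := by
    ext k l
    change CMdg a k.1 l.1 = _
    simp only [CMdg, Matrix.diagonal_apply, Subtype.ext_iff]
  rw [h1, Matrix.det_diagonal, ← Complex.ofReal_prod, ← Real.exp_sum, Complex.norm_real,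
    Real.norm_of_nonneg (Real.exp_pos _).le, Real.log_exp, Finset.mul_sum,
    ← Finset.sum_subtype (Finset.univ.filter fun k => D.v k = i) (p := fun k => D.v k = i)
      (by simp) fun k => (th i : ℝ) * a k]
  exact Finset.sum_congr rfl fun k hk => by rw [(Finset.mem_filter.1 hk).2]

theorem CM_continuousOn_lch : ContinuousOn (D.CMlch th) {g | D.CMBlk g ∧ g.det ≠ 0} := by
  refine continuousOn_finsetSum _ fun i _ => continuousOn_const.mul (ContinuousOn.log ?_ ?_)
  · refine (Continuous.norm (Continuous.matrix_det ?_)).continuousOn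
    exact continuous_matrix fun k l => continuous_id.matrix_elem k.1 l.1
  · exact fun g hg => norm_ne_zero_iff.2 (D.CMFun_det_ne hg.1 hg.2 i)

theorem CM_cj_one (x : UU β Ar) : CMcj 1 x = x := by
  funext γ
  simp [CMcj]

theorem CM_cj_mul (g h : Matrix β β ℂ) (x : UU β Ar) : CMcj (g * h) x = CMcj g (CMcj h x) := by
  funext γ
  simp only [CMcj, Matrix.mul_inv_rev, Matrix.mul_assoc]

theorem CM_cj_unit (hu : g ∈ Matrix.unitaryGroup β ℂ) (x : UU β Ar) (γ : Gam Ar) :
    CMcj g x γ = g * x γ * star g := by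
  rw [CMcj, Matrix.inv_eq_right_inv (Matrix.mem_unitaryGroup_iff.1 hu)]

theorem CM_continuousOn_cj :
    ContinuousOn (fun p : Matrix β β ℂ × UU β Ar => CMcj p.1 p.2) {p | p.1.det ≠ 0} := by
  have h1 : ContinuousOn (fun p : Matrix β β ℂ × UU β Ar => p.1⁻¹) {p | p.1.det ≠ 0} := by
    intro p hp
    refine (ContinuousAt.comp (f := fun p : Matrix β β ℂ × UU β Ar => p.1)
      (continuousAt_matrix_inv p.1 ?_) continuousAt_fst).continuousWithinAt
    exact NormedRing.inverse_continuousAt (Units.mk0 _ hp)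
  refine continuousOn_pi.2 fun γ => ?_
  have h2 : Continuous fun p : Matrix β β ℂ × UU β Ar => p.1 * p.2 γ :=
    continuous_fst.mul ((continuous_apply γ).comp continuous_snd)
  exact h2.continuousOn.mul h1

theorem CM_continuous_nsq : Continuous (CMnsq : UU β Ar → ℝ) := by
  refine continuous_finsetSum _ fun γ _ => continuous_finsetSum _ fun k _ =>
    continuous_finsetSum _ fun l _ => ?_
  exact ((continuous_apply (some γ)).matrix_elem k l).norm.pow 2

omit [DecidableEq β] in
theorem CMFun_trace (a : Matrix β β ℂ) :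
    ∑ k, ∑ l, ‖a k l‖ ^ 2 = (Matrix.trace (a * star a)).re := by
  rw [Matrix.trace, Complex.re_sum]
  refine Finset.sum_congr rfl fun k _ => ?_
  rw [Matrix.diag_apply, Matrix.mul_apply, Complex.re_sum]
  refine Finset.sum_congr rfl fun l _ => ?_
  rw [Matrix.star_apply, Complex.star_def, Complex.mul_conj, Complex.ofReal_re,
    Complex.normSq_eq_norm_sq]

theorem CM_nsq_unit (hu : g ∈ Matrix.unitaryGroup β ℂ) (x : UU β Ar) :
    CMnsq (CMcj g x) = CMnsq x := by
  refine Finset.sum_congr rfl fun γ _ => ?_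
  rw [CMFun_trace, CMFun_trace, CM_cj_unit hu, star_mul, star_mul, star_star]
  have h1 := Matrix.mem_unitaryGroup_iff'.1 hu
  have e : g * x (some γ) * star g * (g * (star (x (some γ)) * star g)) =
      g * (x (some γ) * (star g * g) * star (x (some γ)) * star g) := by
    simp only [Matrix.mul_assoc]
  rw [e, Matrix.trace_mul_comm, Matrix.mul_assoc _ (star g) g, h1, Matrix.mul_one,
    Matrix.mul_one]

theorem CM_nsq_dg (a : β → ℝ) (x : UU β Ar) : CMnsq (CMcj (CMdg a) x) =
    ∑ k, ∑ l, (∑ γ : Ar ⊕ Ar, ‖x (some γ) k l‖ ^ 2) * Real.exp (2 * (a k - a l)) := by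
  rw [CMnsq, Finset.sum_comm]
  refine Finset.sum_congr rfl fun k _ => ?_
  rw [Finset.sum_comm]
  refine Finset.sum_congr rfl fun l _ => ?_
  rw [Finset.sum_mul]
  refine Finset.sum_congr rfl fun γ _ => ?_
  rw [CMcj, CM_dg_inv, CMdg, CMdg, Matrix.mul_diagonal, Matrix.diagonal_mul, norm_mul, norm_mul,
    Complex.norm_real, Complex.norm_real, Real.norm_of_nonneg (Real.exp_pos _).le,
    Real.norm_of_nonneg (Real.exp_pos _).le, Pi.neg_apply,
    show 2 * (a k - a l) = a k + a k + (-a l + -a l) by ring, Real.exp_add, Real.exp_add,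
    Real.exp_add]
  ring

theorem CM_continuousOn_kn :
    ContinuousOn (fun p : UU β Ar × Matrix β β ℂ => D.CMkn th p.1 p.2)
      {p | D.CMBlk p.2 ∧ p.2.det ≠ 0} := by
  refine ContinuousOn.add ?_ (continuousOn_const.mul ?_)
  · exact CM_continuous_nsq.comp_continuousOn (CM_continuousOn_cj.comp
      (f := fun p : UU β Ar × Matrix β β ℂ => (p.2, p.1)) continuous_swap.continuousOn
      fun p hp => hp.2)
  · exact D.CM_continuousOn_lch.comp continuous_snd.continuousOn fun p hp => hp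

theorem CMFun_unit_det (hu : g ∈ Matrix.unitaryGroup β ℂ) : g.det ≠ 0 := by
  have h1 := congrArg Matrix.det (Matrix.mem_unitaryGroup_iff.1 hu)
  rw [Matrix.det_mul, Matrix.det_one] at h1
  exact left_ne_zero_of_mul_eq_one h1

/-- The function in the coordinates of the singular value decomposition. -/
theorem CM_kn_svd {k k' : Matrix β β ℂ} (hk : k ∈ Matrix.unitaryGroup β ℂ) (hb : D.CMBlk k)
    (hk' : k' ∈ Matrix.unitaryGroup β ℂ) (hb' : D.CMBlk k') (a : β → ℝ) (x : UU β Ar) :
    D.CMkn th x (k' * CMdg a * k) =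
      ∑ i, ∑ l, (∑ γ : Ar ⊕ Ar, ‖CMcj k x (some γ) i l‖ ^ 2) * Real.exp (2 * (a i - a l)) +
        2 * ∑ i, (th (D.v i) : ℝ) * a i := by
  have hba : D.CMBlk (CMdg a) := D.CM_blk_diagonal _
  rw [CMkn, CM_cj_mul, CM_cj_mul, CM_nsq_unit hk', CM_nsq_dg,
    D.CM_lch_mul (hb'.mul hba) (by
      rw [Matrix.det_mul]
      exact mul_ne_zero (CMFun_unit_det hk') (CM_dg_det a)) hb (CMFun_unit_det hk),
    D.CM_lch_mul hb' (CMFun_unit_det hk') hba (CM_dg_det a), D.CM_lch_unit hb hk,
    D.CM_lch_unit hb' hk', CM_lch_dg, zero_add, add_zero]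

/-- Equivariance. -/
theorem CM_kn_rel (hg : D.CMBlk g) (hd : g.det ≠ 0) (hr : CMRel g x y) (hh : D.CMBlk h)
    (hd' : h.det ≠ 0) : D.CMkn th y h = D.CMkn th x (h * g) - 2 * D.CMlch th g := by
  obtain ⟨c, hc, hxy⟩ := hr
  have h1 : CMnsq (CMcj h y) = CMnsq (CMcj (h * g) x) := by
    refine Finset.sum_congr rfl fun γ _ => ?_
    have h2 : y (some γ) = c γ • (g * x (some γ) * g⁻¹) := by
      rw [← Matrix.smul_mul, ← hxy, Matrix.mul_nonsing_inv_cancel_right _ _
        (isUnit_iff_ne_zero.2 hd)]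
    have h3 : CMcj h y (some γ) = c γ • CMcj (h * g) x (some γ) := by
      rw [CM_cj_mul, CMcj, CMcj, CMcj, h2, Matrix.mul_smul, Matrix.smul_mul]
    simp only [h3, Matrix.smul_apply, smul_eq_mul, norm_mul, hc, one_mul]
  rw [CMkn, CMkn, h1, D.CM_lch_mul hh hd' hg hd]
  ring

end HD

end Pool.Agent.HK
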