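import Pool.Agent.P.MP_1206ce_ag.CM.KN

/-! The continuous gauge fixing. -/

open scoped Topology ComplexOrder
open Filter Set

noncomputable section

namespace Pool.Agent.HK

namespace HD

variable {β I Ar τ : Type} [Fintype β] [DecidableEq β] [Fintype I] [DecidableEq I] [Fintype Ar]
  [DecidableEq Ar] [Fintype τ] [DecidableEq τ] (D : HD β I Ar τ)

variable {th : I → ℤ} {k₀ : β}

theorem CMGauge_tendsto {u : ℕ → UU β Ar} {x : UU β Ar} (hu : Tendsto u atTop (𝓝 x))
    {a : ℕ → Matrix β β ℂ} {g : Matrix β β ℂ} (ha : Tendsto a atTop (𝓝 g))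
    (h : ∀ n, a n ∈ D.CMG k₀) (hg : g ∈ D.CMG k₀) :
    Tendsto (fun n => D.CMkn th (u n) (a n)) atTop (𝓝 (D.CMkn th x g)) := by
  have h1 : Tendsto (fun n => (u n, a n)) atTop
      (𝓝[{p : UU β Ar × Matrix β β ℂ | D.CMBlk p.2 ∧ p.2.det ≠ 0}] (x, g)) :=
    tendsto_nhdsWithin_iff.2 ⟨hu.prodMk_nhds ha,
      Eventually.of_forall fun n => ⟨(h n).1, (h n).2.1⟩⟩
  have h2 := (D.CM_continuousOn_kn (th := th) (x, g) ⟨hg.1, hg.2.1⟩).tendsto.comp h1
  simpa only [Function.comp_def] using h2

/-- The Gram matrix of the minimiser depends continuously on the stable point. -/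
theorem CM_continuousOn_min (hg : D.Gen0 th k₀) {m : UU β Ar → Matrix β β ℂ}
    (hm : ∀ x ∈ D.Xs th, D.CMMin th k₀ x (m x)) :
    ContinuousOn (fun x => star (m x) * m x) (D.Xs th) := by
  have : FirstCountableTopology (Matrix β β ℂ) :=
    inferInstanceAs (FirstCountableTopology (β → β → ℂ))
  intro x hx
  refine tendsto_of_subseq_tendsto fun ns hns => ?_
  obtain ⟨h1, h2⟩ := tendsto_nhdsWithin_iff.1 hns
  obtain ⟨N, hN⟩ := eventually_atTop.1 h2
  have hu : Tendsto (fun n => ns (n + N)) atTop (𝓝 x) := h1.comp (tendsto_add_atTop_nat N)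
  have hX : ∀ n, ns (n + N) ∈ D.Xs th := fun n => hN _ (Nat.le_add_left N n)
  have hC := hu.isCompact_insert_range
  have hCX : insert x (range fun n => ns (n + N)) ⊆ D.Xs th :=
    insert_subset hx (range_subset_iff.2 hX)
  have h1G : (1 : Matrix β β ℂ) ∈ D.CMG k₀ := D.CM_one_mem
  have hc : Continuous fun y : UU β Ar => D.CMkn th y 1 :=
    (D.CM_continuousOn_kn (th := th)).comp_continuous (f := fun y : UU β Ar => (y, 1))
      (continuous_id.prodMk continuous_const) fun _ => ⟨h1G.1, h1G.2.1⟩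
  obtain ⟨M, hM⟩ := hC.bddAbove_image hc.continuousOn
  obtain ⟨T, hT, hTG, hTm⟩ := D.CM_coercive hg hC hCX M
  have hmT : ∀ n, m (ns (n + N)) ∈ T := fun n =>
    hTm _ (mem_insert_of_mem _ (mem_range_self n)) _ (hm _ (hX n)).1
      (((hm _ (hX n)).2 1 h1G).trans
        (hM (mem_image_of_mem _ (mem_insert_of_mem _ (mem_range_self n)))))
  obtain ⟨g, hgT, φ, hφ, hlim⟩ := hT.tendsto_subseq hmT
  have hu' : Tendsto (fun n => ns (φ n + N)) atTop (𝓝 x) := hu.comp hφ.tendsto_atTop
  have hmin : D.CMMin th k₀ x g := ⟨hTG hgT, fun g' hg' =>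
    le_of_tendsto_of_tendsto'
      (D.CMGauge_tendsto (th := th) hu' hlim (fun n => hTG (hmT _)) (hTG hgT))
      (D.CMGauge_tendsto (th := th) hu' tendsto_const_nhds (fun _ => hg') hg')
      fun n => (hm _ (hX (φ n))).2 g' hg'⟩
  refine ⟨fun n => φ n + N, ?_⟩
  have hcont : Continuous fun a : Matrix β β ℂ => star a * a := continuous_star.mul continuous_id
  have h3 := (hcont.tendsto g).comp hlim
  rw [D.CM_min_unique hg hx hmin (hm x hx)] at h3
  exact h3

theorem CM_exists_gauge (hg : D.Gen0 th k₀) : ∃ ρ, D.IsGauge th k₀ ρ := by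
  have hex : ∀ x ∈ D.Xs th, ∃ g, D.CMMin th k₀ x g := fun x hx => D.CM_exists_min hg hx
  choose! m hm using hex
  obtain ⟨sq, hc, h1, h2⟩ := Frames_exists_sqrt (V := β)
  have hps : ∀ x, (star (m x) * m x).PosSemidef := fun x =>
    Matrix.posSemidef_conjTranspose_mul_self (m x)
  have hconj : ∀ a u : Matrix β β ℂ, a.PosSemidef → star u * u = 1 →
      sq (u * a * star u) = u * sq a * star u := fun a u ha hu => by
    refine h2 _ _ ((h1 a ha).1.mul_mul_conjTranspose_same u) ?_
    calc u * sq a * star u * (u * sq a * star u)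
        = u * (sq a * (star u * u) * sq a) * star u := by simp only [Matrix.mul_assoc]
      _ = u * a * star u := by rw [hu, Matrix.mul_one, (h1 a ha).2]
  have hdet : ∀ x ∈ D.Xs th, (sq (star (m x) * m x)).det ≠ 0 := fun x hx h0 => by
    have h3 := congrArg Matrix.det (h1 _ (hps x)).2
    rw [Matrix.det_mul, h0, zero_mul, Matrix.det_mul, Matrix.star_eq_conjTranspose,
      Matrix.det_conjTranspose] at h3
    exact mul_ne_zero (star_ne_zero.2 (hm x hx).1.2.1) (hm x hx).1.2.1 h3.symm
  have hpd : ∀ x ∈ D.Xs th, (sq (star (m x) * m x)).PosDef := fun x hx =>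
    ((h1 _ (hps x)).1.posDef_iff_det_ne_zero).2 (hdet x hx)
  have hblk : ∀ x ∈ D.Xs th, D.CMBlk (sq (star (m x) * m x)) := fun x hx => by
    have h3 : D.CMBlk (star (m x) * m x) := (hm x hx).1.1.star.mul (hm x hx).1.1
    have h4 : Frames_Blk D.v (sq (star (m x) * m x)) :=
      Frames_blk_of_conj (a := star (m x) * m x) (fun k l h => not_not.1 fun h' => h (h3 k l h'))
        fun u hu h => by rw [← hconj _ u (hps x) hu, h]
    exact fun k l h => not_not.1 fun h' => h (h4 k l h')
  have hrel : ∀ x ∈ D.Xs th, ∀ y ∈ D.Xs th, ∀ g ∈ D.CMG k₀, CMRel g x y →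
      star g * (star (m y) * m y) * g = star (m x) * m x := fun x hx y hy g hG hr => by
    rw [← D.CM_min_unique hg hx (D.CM_min_rel hg hG hr (hm y hy)) (hm x hx), star_mul]
    simp only [Matrix.mul_assoc]
  refine ⟨fun x => sq (star (m x) * m x), hc.comp (D.CM_continuousOn_min hg hm) fun x _ => hps x,
    hpd, hblk, fun x hx => ?_, fun x hx y hy g hG hr => ?_, fun x hx y hy g hG hu hr => ?_⟩
  · have h3 := congrFun (congrFun (h1 _ (hps x)).2 k₀) k₀
    rw [((hblk x hx).mul_single hg.single _).1, ((hm x hx).1.1.mul_single hg.single _).2,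
      Matrix.star_apply, Complex.star_def, Complex.conj_mul', (hm x hx).1.2.2] at h3
    simp only [Complex.ofReal_one, one_pow] at h3
    rcases mul_self_eq_one_iff.1 h3 with h4 | h4
    · exact h4
    · have h5 := (hpd x hx).diag_pos (i := k₀)
      rw [h4] at h5
      exact absurd (neg_pos.1 h5) (not_lt_of_gt zero_lt_one)
  · have e1 : star (sq (star (m x) * m x)) = sq (star (m x) * m x) := (hpd x hx).isHermitian
    have e2 : star (sq (star (m y) * m y)) = sq (star (m y) * m y) := (hpd y hy).isHermitian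
    have e3 : star (sq (star (m x) * m x))⁻¹ = (sq (star (m x) * m x))⁻¹ := (hpd x hx).inv.isHermitian
    have e4 := Matrix.nonsing_inv_mul _ (hdet x hx).isUnit
    have e5 := Matrix.mul_nonsing_inv _ (hdet x hx).isUnit
    rw [Matrix.mem_unitaryGroup_iff', star_mul, star_mul, e2, e3]
    calc _ = (sq (star (m x) * m x))⁻¹ *
          (star g * (sq (star (m y) * m y) * sq (star (m y) * m y)) * g) *
          (sq (star (m x) * m x))⁻¹ := by simp only [Matrix.mul_assoc]
      _ = (sq (star (m x) * m x))⁻¹ * (sq (star (m x) * m x) * sq (star (m x) * m x)) *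
          (sq (star (m x) * m x))⁻¹ := by
        rw [(h1 _ (hps y)).2, hrel x hx y hy g hG hr, (h1 _ (hps x)).2]
      _ = 1 := by rw [← Matrix.mul_assoc, e4, Matrix.one_mul, e5]
  · have e1 := Matrix.mem_unitaryGroup_iff.1 hu
    have e2 : star (m y) * m y = g * (star (m x) * m x) * star g := by
      rw [← hrel x hx y hy g hG hr]
      calc _ = g * star g * (star (m y) * m y) * (g * star g) := by
            rw [e1, Matrix.one_mul, Matrix.mul_one]
        _ = _ := by simp only [Matrix.mul_assoc]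
    show sq _ = _
    rw [e2, hconj _ g (hps x) (Matrix.mem_unitaryGroup_iff'.1 hu)]

end HD

end Pool.Agent.HK
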