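import Pool.Agent.P.MP_1206ce_ag.CM.Orb

/-! The group `K3`, flavour frames and the map `Phi`. -/

open scoped Topology ComplexOrder
open Filter Set

noncomputable section

namespace Pool.Agent.HK

namespace Qv

variable (Q : Qv)

variable {u : Matrix Q.HV Q.HV ℂ}

theorem CM_K3_subset : Q.K3 ⊆ Q.hd.K (HD.one _) := KF_subset _ _

theorem CM_isAct_K3 : IsAct Q.K3 Q.hd.act :=
  (Q.hd.isAct_K _).mono (isGrp_KF _ _) Q.CM_K3_subset

theorem CM_nice : Nice (Bor Q.K3 Q.hd.act) := Q.hd.nice_Bor (isGrp_KF _ _) Q.CM_K3_subset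

theorem CMGrp_sub (hu : u ∈ Q.K3) : Q.CMresM u ∈ Q.FF ∧
    ∀ e : Fr Q.HV, Q.CMres (frAct u e) = frAct (Q.CMresM u) (Q.CMres e) :=
  Ch_sub_mem (lab := Q.hd.lab0) (lab' := (id : Fin Q.nT → Fin Q.nT))
    (ι := fun a => Q.inc (Sum.inr a)) (Q.inc_injective.comp Sum.inr_injective)
    (fun k l => (Q.inc_lab _ _).trans (by simp [lab]))
    (fun k x hx => ⟨k, (Q.Link_single_t _ x hx).symm⟩) hu.1

theorem CMGrp_x (hu : u ∈ Q.K3) (l : Q.HV) :
    u (Sum.inl none) l = (1 : Matrix Q.HV Q.HV ℂ) (Sum.inl none) l := hu.2 _ (by simp) l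

theorem CMGrp_h (hu : u ∈ Q.K3) : u (Sum.inr none) (Sum.inr none) = 1 :=
  (hu.2 _ (by simp) _).trans (Matrix.one_apply_eq _)

theorem CMGrp_b (hu : u ∈ Q.K3) : u (Sum.inr (some 0)) (Sum.inr (some 0)) = 1 :=
  (hu.2 _ (by simp) _).trans (Matrix.one_apply_eq _)

theorem CM_resM_mem (hu : u ∈ Q.K3) : Q.CMresM u ∈ Q.FF := (Q.CMGrp_sub hu).1

theorem CM_gau_mem (hu : u ∈ Q.K3) : HD.gau u ∈ Matrix.unitaryGroup (Option (Fin Q.nB)) ℂ ∧
    Q.hd.CMBlk (HD.gau u) ∧ HD.gau u none none = 1 :=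
  ⟨Q.hd.gau_unitary hu.1, fun _ _ h => (Q.hd.gau_block (sl := HD.one _) hu.1 h).1,
    (Q.CMGrp_x hu _).trans (Matrix.one_apply_eq _)⟩

theorem CM_act_apply (hu : u ∈ Q.K3) (x : Q.CMU) :
    Q.hd.act u x none = HD.gau u * x none * star (HD.gau u) ∧ ∀ h,
      Q.hd.act u x (some (Sum.inl h)) = Q.chi (fun a => Q.CMresM u a a) h •
        (HD.gau u * x (some (Sum.inl h)) * star (HD.gau u)) ∧
      Q.hd.act u x (some (Sum.inr h)) = (Q.chi (fun a => Q.CMresM u a a) h)⁻¹ •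
        (HD.gau u * x (some (Sum.inr h)) * star (HD.gau u)) := by
  refine ⟨?_, fun h => ⟨?_, ?_⟩⟩
  · simp [HD.act, HD.Basic_chr, HD.w3, hd, Fintype.prod_option, Q.CMGrp_h hu]
  · simp only [HD.act]
    congr 1
    simp [HD.Basic_chr, HD.w3, hd, Fintype.prod_option, Fin.prod_univ_succ, Q.CMGrp_b hu, chi,
      CMresM, inc]
  · simp only [HD.act]
    congr 1
    simp [HD.Basic_chr, HD.w3, hd, Fintype.prod_option, Fin.prod_univ_succ, Q.CMGrp_b hu,
      Q.CMGrp_h hu, chi, CMresM, inc]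

theorem CM_mkU_mem {g : Q.Mat} (hg : g ∈ Matrix.unitaryGroup (Option (Fin Q.nB)) ℂ)
    (hb : Q.hd.CMBlk g) (h1 : g none none = 1) {t : Q.CMT} (ht : t ∈ Q.FF) :
    Q.CMmkU g t ∈ Q.K3 ∧ HD.gau (Q.CMmkU g t) = g ∧ Q.CMresM (Q.CMmkU g t) = t := by
  refine ⟨⟨⟨?_, ?_⟩, ?_⟩, ?_, ?_⟩
  · have h2 : g * g.conjTranspose = 1 := Matrix.mem_unitaryGroup_iff.1 hg
    have h3 : ∀ a, t a a * (starRingEnd ℂ) (t a a) = 1 := fun a => by
      rw [Complex.mul_conj, Complex.normSq_eq_norm_sq, Top_norm_diag ht a]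
      simp
    rw [Matrix.mem_unitaryGroup_iff, Matrix.star_eq_conjTranspose, CMmkU,
      Matrix.fromBlocks_conjTranspose, Matrix.fromBlocks_multiply, ← Matrix.fromBlocks_one]
    simp only [h2, Matrix.conjTranspose_zero, Matrix.mul_zero, Matrix.zero_mul, add_zero, zero_add,
      Matrix.diagonal_conjTranspose, Matrix.diagonal_mul_diagonal]
    congr 1
    rw [← Matrix.diagonal_one]
    congr 1
    funext o
    rcases o with _ | o
    · simp
    · refine Fin.cases ?_ (fun a => ?_) o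
      · simp
      · simpa using h3 a
  · rintro (k | a) (l | b) h
    · by_contra hn
      exact h (by simp [HD.lab, hb k l hn])
    · simp [CMmkU]
    · simp [CMmkU]
    · have hab : a ≠ b := fun e => h (by rw [e])
      simp [CMmkU, Matrix.diagonal_apply_ne _ hab]
  · rintro k (rfl | rfl | rfl | hk) l
    · rcases l with l | b
      · by_cases hl : l = none
        · subst hl
          simp [CMmkU, h1]
        · have h2 : g none l = 0 := by
            by_contra hn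
            exact hl (Q.CM_single l (hb _ _ hn).symm)
          simp [CMmkU, h2, Matrix.one_apply, Ne.symm hl]
      · simp [CMmkU]
    · rcases l with l | b
      · simp [CMmkU]
      · simp [CMmkU, Matrix.diagonal_apply, Matrix.one_apply]
    · rcases l with l | b
      · simp [CMmkU]
      · simp [CMmkU, Matrix.diagonal_apply, Matrix.one_apply]
    · exact absurd hk (notMem_empty _)
  · ext k l
    simp [HD.gau, CMmkU]
  · ext a b
    by_cases hab : a = b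
    · subst hab
      simp [CMresM, CMmkU, inc]
    · simp [CMresM, CMmkU, inc, Matrix.diagonal_apply, hab, ht.2 a b hab]

theorem CM_eq_mkU (hu : u ∈ Q.K3) : u = Q.CMmkU (HD.gau u) (Q.CMresM u) := by
  ext (k | a) (l | b)
  · simp [CMmkU, HD.gau]
  · simp [CMmkU, Q.hd.Basic_lr (sl := HD.one _) hu.1]
  · simp [CMmkU, Q.hd.Basic_rl (sl := HD.one _) hu.1]
  · by_cases hab : a = b
    · subst hab
      rcases a with _ | o
      · simp [CMmkU, Q.CMGrp_h hu]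
      · refine Fin.cases ?_ (fun a => ?_) o
        · simp [CMmkU, Q.CMGrp_b hu]
        · simp [CMmkU, CMresM, inc]
    · simp [CMmkU, Matrix.diagonal_apply_ne _ hab, Q.hd.Basic_rr (sl := HD.one _) hu.1 hab]

theorem CM_mkU_one : Q.CMmkU 1 1 = 1 := by
  have h := Q.CM_eq_mkU (isGrp_KF Q.hd.lab0 Q.fr3).one
  have h2 : Q.CMresM 1 = 1 :=
    Matrix.submatrix_one _ (Q.inc_injective.comp Sum.inr_injective)
  rw [HD.Basic_gau_one, h2] at h
  exact h.symm

theorem CM_res_ext (e : Fr (Fin Q.nT)) : Q.CMres (Q.CMext e) = e := rfl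

theorem CM_ext_apply (e : Fr (Fin Q.nT)) (j : ℕ) (a : Fin Q.nT) :
    Q.CMext e j (Q.inc (Sum.inr a)) = e j a := rfl

theorem CM_continuous_res : Continuous Q.CMres :=
  continuous_pi fun j => continuous_pi fun _ => (continuous_apply _).comp (continuous_apply j)

theorem CM_continuous_ext : Continuous Q.CMext := by
  refine continuous_pi fun j => continuous_pi ?_
  rintro (k | _ | o)
  · exact continuous_const
  · exact continuous_const
  · refine Fin.cases ?_ (fun a => ?_) o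
    · exact continuous_const
    · exact (continuous_apply a).comp (continuous_apply j)

theorem CM_res_frAct (hu : u ∈ Q.K3) (e : Fr Q.HV) :
    Q.CMres (frAct u e) = frAct (Q.CMresM u) (Q.CMres e) := (Q.CMGrp_sub hu).2 e

theorem CMGrp_frAct_inr (hu : u ∈ Q.K3) (e : Fr Q.HV) (j : ℕ) (o : Option (Fin (Q.nT + 1))) :
    frAct u e j (Sum.inr o) = e j (Sum.inr o) * star (u (Sum.inr o) (Sum.inr o)) := by
  simp only [frAct, Matrix.vecMul, dotProduct, Matrix.star_apply]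
  rw [Finset.sum_eq_single (Sum.inr o)]
  · rintro (k | b) - hb
    · rw [Q.hd.Basic_rl (sl := HD.one _) hu.1, star_zero, mul_zero]
    · rw [Q.hd.Basic_rr (sl := HD.one _) hu.1 (fun h => hb (by rw [h])), star_zero, mul_zero]
  · intro h
    exact absurd (Finset.mem_univ _) h

theorem CM_ext_frAct (hu : u ∈ Q.K3) (e : Fr (Fin Q.nT)) :
    frAct u (Q.CMext e) = Q.CMext (frAct (Q.CMresM u) e) := by
  funext j x
  rcases x with k | _ | o
  · simp [frAct, Matrix.vecMul, dotProduct, Matrix.star_apply, Fintype.sum_sum_type, CMext,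
      Q.hd.Basic_lr (sl := HD.one _) hu.1]
  · rw [Q.CMGrp_frAct_inr hu]
    simp [CMext]
  · refine Fin.cases ?_ (fun a => ?_) o
    · rw [Q.CMGrp_frAct_inr hu]
      simp [CMext]
    · exact congrFun (congrFun (Q.CM_res_frAct hu (Q.CMext e)) j) a

theorem CM_res_mem {n : ℕ} {e : Fr Q.HV} (he : e ∈ St Q.hd.lab0 n) : Q.CMres e ∈ St id n := by
  refine ⟨fun j hj => funext fun a => congrFun (he.1 j hj) _, fun k l h => ?_⟩
  obtain rfl : k = l := h
  have h1 := he.2 (Q.inc (Sum.inr k)) _ rfl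
  rw [if_pos rfl] at h1 ⊢
  exact h1

theorem CM_isCompact_EF (n : ℕ) : IsCompact (Q.CMEF n) :=
  (isCompact_St id n).image Q.CM_continuous_ext

theorem CM_invF_EF (n : ℕ) : InvF Q.K3 (Q.CMEF n) := by
  rintro u hu _ ⟨e, he, rfl⟩
  exact ⟨_, invF_St Subset.rfl n _ (Q.CM_resM_mem hu) e he, (Q.CM_ext_frAct hu e).symm⟩

theorem CM_inv_EF (θ : Fin Q.nI → ℤ) (n : ℕ) :
    Inv Q.K3 Q.hd.act (Q.hd.Z0 (Q.thb θ) ×ˢ Q.CMEF n) :=
  Inv.prod (fun u hu => Q.hd.invX_Z0 _ u hu.1) (Q.CM_invF_EF n)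

theorem CM_lc_EF (θ : Fin Q.nI → ℤ) (n : ℕ) :
    LC (BS Q.K3 Q.hd.act (Q.hd.Z0 (Q.thb θ)) (Q.CMEF n)) := by
  rw [BS_eq]
  exact Q.CM_isAct_K3.lc_BI (Q.CM_inv_EF θ n)
    ((Q.hd.lc_Z0 _).prod (LC.of_isCompact (Q.CM_isCompact_EF n)))

theorem CM_omk_act (hu : u ∈ Q.K3) (x : Q.CMU) :
    Q.CMomk (Q.CMprs (Q.hd.act u x)) = Q.actM (Q.CMresM u) (Q.CMomk (Q.CMprs x)) := by
  obtain ⟨h1, h2, h3⟩ := Q.CM_gau_mem hu
  have h4 : star (HD.gau u) * HD.gau u = 1 := Matrix.mem_unitaryGroup_iff'.1 h1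
  have h5 : (HD.gau u).det ≠ 0 := by
    have := congrArg Matrix.det h4
    rw [Matrix.det_mul, Matrix.det_one] at this
    exact right_ne_zero_of_mul_eq_one this
  rw [CM_actM_omk]
  refine (Q.CM_omk_eq_iff.2 ⟨HD.gau u, Q.CM_mem_GG.2 ⟨h2, h5, h3⟩, fun h => ?_⟩).symm
  obtain ⟨h6, h7⟩ := (Q.CM_act_apply hu x).2 h
  simp only [CMprs, CMscl, h6, h7, Matrix.mul_smul, Matrix.smul_mul, Matrix.mul_assoc, h4,
    Matrix.mul_one, and_self]

theorem CM_eqv_PhiP : EqvOn Q.K3 Q.hd.act Q.FF Q.actM univ Q.CMPhiP := fun _ hu p _ =>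
  ⟨_, Q.CM_resM_mem hu, Prod.ext (Q.CM_omk_act hu p.1) (Q.CM_res_frAct hu p.2)⟩

theorem CM_Phi_bmk (p : Q.CMU × Fr Q.HV) :
    Q.Phi (bmk Q.K3 Q.hd.act p) = bmk Q.FF Q.actM (Q.CMPhiP p) :=
  Q.CM_isAct_K3.bmp_bmk Q.CM_eqv_PhiP (mem_univ p)

theorem CM_continuous_Phi : Continuous Q.Phi := by
  have h := Q.CM_isAct_K3.continuousOn_bmp (P := univ) (fun _ _ _ _ => mem_univ _) Q.CM_eqv_PhiP
    (((Q.CM_continuous_omk.comp Q.CM_continuous_prs).prodMap Q.CM_continuous_res).continuousOn)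
  rwa [Ch_BI_univ, continuousOn_univ] at h

theorem CM_eqv_prj :
    EqvOn Q.K3 Q.hd.act Q.K3 Q.hd.act univ (Prod.map id (Q.CMext ∘ Q.CMres)) := by
  refine fun u hu p _ => ⟨u, hu, Prod.ext rfl ?_⟩
  change Q.CMext (Q.CMres (frAct u p.2)) = frAct u (Q.CMext (Q.CMres p.2))
  rw [Q.CM_res_frAct hu, Q.CM_ext_frAct hu]

theorem CM_prj_bmk (p : Q.CMU × Fr Q.HV) :
    Q.CMprj (bmk Q.K3 Q.hd.act p) = bmk Q.K3 Q.hd.act (p.1, Q.CMext (Q.CMres p.2)) :=
  Q.CM_isAct_K3.bmp_bmk Q.CM_eqv_prj (mem_univ p)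

theorem CM_Phi_prj : Q.Phi ∘ Q.CMprj = Q.Phi := by
  funext q
  obtain ⟨p, rfl⟩ := Ch_surj q
  rw [Function.comp_apply, CM_prj_bmk, CM_Phi_bmk, CM_Phi_bmk]
  rfl

end Qv

end Pool.Agent.HK
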