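import Mathlib

/-! The real inequality behind the properness of the Kempf-Ness function. -/

noncomputable section

namespace Pool.Agent.HK

theorem CMIneq_exp (lam s : ℝ) : 2 * lam * max s 0 - lam ^ 2 ≤ Real.exp (2 * s) := by
  rcases le_total s 0 with h | h
  · rw [max_eq_right h]
    nlinarith [Real.exp_pos (2 * s), sq_nonneg lam]
  · rw [max_eq_left h, two_mul s, Real.exp_add]
    nlinarith [Real.add_one_le_exp s, sq_nonneg (s - lam)]

theorem CMIneq_cut {β : Type} [Fintype β] [DecidableEq β] (w : β → ℤ)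
    (c : β → β → ℝ) (hc : ∀ k l, 0 ≤ c k l) {lam : ℝ} (hl : 0 ≤ lam)
    (hq : ∀ q : Finset β, q.Nonempty → q ≠ Finset.univ → 0 ≤ ∑ k ∈ q, w k →
      (∑ k, |(w k : ℝ)|) + 1 ≤ lam * ∑ k ∈ qᶜ, ∑ l ∈ q, c k l)
    (q : Finset β) (h₁ : q.Nonempty) (h₂ : q ≠ Finset.univ) :
    1 + ∑ k ∈ q, (w k : ℝ) ≤ lam * ∑ k ∈ qᶜ, ∑ l ∈ q, c k l := by
  rcases le_or_gt 0 (∑ k ∈ q, w k) with h | h
  · have h3 : ∑ k ∈ q, (w k : ℝ) ≤ ∑ k, |(w k : ℝ)| :=
      (Finset.sum_le_sum fun k _ => le_abs_self _).trans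
        (Finset.sum_le_sum_of_subset_of_nonneg (Finset.subset_univ q) fun _ _ _ => abs_nonneg _)
    linarith [hq q h₁ h₂ h]
  · have h3 : ((∑ k ∈ q, w k + 1 : ℤ) : ℝ) ≤ 0 := by exact_mod_cast h
    push_cast at h3
    have h4 : 0 ≤ lam * ∑ k ∈ qᶜ, ∑ l ∈ q, c k l :=
      mul_nonneg hl (Finset.sum_nonneg fun k _ => Finset.sum_nonneg fun l _ => hc k l)
    linarith

theorem CMIneq_main {β : Type} [Fintype β] [DecidableEq β] (w : β → ℝ) (hw : ∑ k, w k = 0)
    (c : β → β → ℝ) (lam : ℝ)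
    (hq : ∀ q : Finset β, q.Nonempty → q ≠ Finset.univ →
      1 + ∑ k ∈ q, w k ≤ lam * ∑ k ∈ qᶜ, ∑ l ∈ q, c k l) (k₁ k₂ : β) (n : ℕ) :
    ∀ a : β → ℝ, (Finset.univ.image a).card = n →
      a k₁ - a k₂ ≤ ∑ k, w k * a k + lam * ∑ k, ∑ l, c k l * max (a k - a l) 0 := by
  induction n using Nat.strong_induction_on with
  | _ n ih =>
  intro a hn
  obtain ⟨k₀, -, h0⟩ := Finset.exists_min_image Finset.univ a ⟨k₁, Finset.mem_univ _⟩
  by_cases hcst : ∀ k, a k = a k₀
  · simp [hcst, ← Finset.sum_mul, hw]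
  obtain ⟨k', hk', h1⟩ := Finset.exists_min_image (Finset.univ.filter fun k => a k ≠ a k₀) a
    (by simpa [Finset.Nonempty] using hcst)
  have hk'' : a k' ≠ a k₀ := (Finset.mem_filter.1 hk').2
  have hlt : a k₀ < a k' := lt_of_le_of_ne (h0 k' (Finset.mem_univ _)) hk''.symm
  have h2 : ∀ k, a k ≠ a k₀ → a k' ≤ a k := fun k hk =>
    h1 k (Finset.mem_filter.2 ⟨Finset.mem_univ _, hk⟩)
  have h3 := ih _ ?_ (fun k => if a k = a k₀ then a k' else a k) rfl
  · have h4 := hq (Finset.univ.filter fun k => a k = a k₀) ⟨k₀, by simp⟩ fun h =>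
      hcst fun k => (Finset.mem_filter.1 (h.ge (Finset.mem_univ k))).2
    rw [Finset.compl_filter, Finset.sum_filter, Finset.sum_filter] at h4
    simp only [Finset.sum_filter] at h4
    have e1 : ∑ k, w k * a k = ∑ k, w k * (if a k = a k₀ then a k' else a k) -
        (a k' - a k₀) * ∑ k, if a k = a k₀ then w k else 0 := by
      rw [Finset.mul_sum, ← Finset.sum_sub_distrib]
      refine Finset.sum_congr rfl fun k _ => ?_
      split_ifs with h
      · rw [h]
        ring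
      · ring
    have e2 : ∑ k, ∑ l, c k l * max (a k - a l) 0 =
        ∑ k, ∑ l, c k l * max ((if a k = a k₀ then a k' else a k) -
          if a l = a k₀ then a k' else a l) 0 + (a k' - a k₀) *
          ∑ k, if ¬ a k = a k₀ then ∑ l, if a l = a k₀ then c k l else 0 else 0 := by
      rw [Finset.mul_sum, ← Finset.sum_add_distrib]
      refine Finset.sum_congr rfl fun k _ => ?_
      by_cases h : a k = a k₀
      · rw [if_neg (not_not.2 h), mul_zero, add_zero, if_pos h]
        refine Finset.sum_congr rfl fun l _ => ?_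
        rw [max_eq_right (by linarith [h0 l (Finset.mem_univ _)]), max_eq_right]
        split_ifs with h'
        · exact (sub_self _).le
        · linarith [h2 l h']
      · rw [if_pos h, if_neg h, Finset.mul_sum, ← Finset.sum_add_distrib]
        refine Finset.sum_congr rfl fun l _ => ?_
        split_ifs with h'
        · rw [max_eq_left (by linarith [h2 k h]), max_eq_left (by linarith [h2 k h]), h']
          ring
        · ring
    have e3 : a k₁ ≤ if a k₁ = a k₀ then a k' else a k₁ := by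
      split_ifs with h
      · linarith
      · exact le_rfl
    have e4 : (if a k₂ = a k₀ then a k' else a k₂) - (a k' - a k₀) ≤ a k₂ := by
      split_ifs with h
      · linarith
      · linarith
    have e5 := mul_le_mul_of_nonneg_left h4 (sub_nonneg.2 hlt.le)
    rw [e1, e2]
    linarith
  · rw [← hn]
    refine Finset.card_lt_card ⟨fun x hx => ?_, fun h => ?_⟩
    · obtain ⟨k, -, rfl⟩ := Finset.mem_image.1 hx
      split_ifs
      · exact Finset.mem_image_of_mem a (Finset.mem_univ _)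
      · exact Finset.mem_image_of_mem a (Finset.mem_univ _)
    · obtain ⟨k, -, hk⟩ := Finset.mem_image.1 (h (Finset.mem_image_of_mem a (Finset.mem_univ k₀)))
      split_ifs at hk with h'
      · exact hk'' hk
      · exact h' hk

theorem CM_ineq {β : Type} [Fintype β] [DecidableEq β] (w : β → ℤ) (hw : ∑ k, w k = 0)
    (c : β → β → ℝ) (hc : ∀ k l, 0 ≤ c k l) {lam : ℝ} (hl : 0 ≤ lam)
    (hq : ∀ q : Finset β, q.Nonempty → q ≠ Finset.univ → 0 ≤ ∑ k ∈ q, w k →
      (∑ k, |(w k : ℝ)|) + 1 ≤ lam * ∑ k ∈ qᶜ, ∑ l ∈ q, c k l)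
    (a : β → ℝ) (k₁ k₂ : β) :
    2 * (a k₁ - a k₂) - lam ^ 2 * ∑ k, ∑ l, c k l ≤
      ∑ k, ∑ l, c k l * Real.exp (2 * (a k - a l)) + 2 * ∑ k, (w k : ℝ) * a k := by
  have h1 := CMIneq_main (fun k => (w k : ℝ)) (by exact_mod_cast hw) c lam
    (CMIneq_cut w c hc hl hq) k₁ k₂ _ a rfl
  have h2 : 2 * lam * ∑ k, ∑ l, c k l * max (a k - a l) 0 - lam ^ 2 * ∑ k, ∑ l, c k l ≤
      ∑ k, ∑ l, c k l * Real.exp (2 * (a k - a l)) := by
    simp only [Finset.mul_sum, ← Finset.sum_sub_distrib]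
    refine Finset.sum_le_sum fun k _ => Finset.sum_le_sum fun l _ => ?_
    linarith [mul_le_mul_of_nonneg_left (CMIneq_exp lam (a k - a l)) (hc k l)]
  linarith

end Pool.Agent.HK
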