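import Pool.Agent.P.MP_1206ce_ag.CM.Fun

/-! Invariance of the stable locus under the complex gauge group. -/

open scoped Topology ComplexOrder
open Filter Set

noncomputable section

namespace Pool.Agent.HK

namespace HD

variable {β I Ar τ : Type} [Fintype β] [DecidableEq β] [Fintype I] [DecidableEq I] [Fintype Ar]
  [DecidableEq Ar] [Fintype τ] [DecidableEq τ] (D : HD β I Ar τ)

variable {th : I → ℤ} {k₀ : β} {g : Matrix β β ℂ} {x y : UU β Ar}

set_option linter.unusedSectionVars false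

theorem CM_mem_U : x ∈ D.U (one β) ↔ ∀ γ l k, x γ l k ≠ 0 → D.ok γ l k = true := D.Schur_mem_U

theorem CM_cj_mem_U (hg : D.CMBlk g) (hx : x ∈ D.U (one β)) : CMcj g x ∈ D.U (one β) := by
  rw [CM_mem_U] at hx ⊢
  intro γ l k h
  obtain ⟨m, h1, h2⟩ := Basic_mul_ne (A := g * x γ) (B := g⁻¹) h
  obtain ⟨n, h3, h4⟩ := Basic_mul_ne h1
  rw [D.Basic_ok_congr γ (hg l n h3) (hg.inv m k h2).symm]
  exact hx γ n m h4

theorem CM_cj_rel (hd : g.det ≠ 0) (x : UU β Ar) : CMRel g x (CMcj g x) := by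
  refine ⟨fun _ => 1, fun _ => norm_one, fun γ => ?_⟩
  rw [one_smul]
  exact Matrix.nonsing_inv_mul_cancel_right g _ (isUnit_iff_ne_zero.2 hd)

theorem CMInv_ne {c : ℂ} (h : ‖c‖ = 1) : c ≠ 0 := by
  intro h0
  rw [h0, norm_zero] at h
  exact zero_ne_one h

theorem CMRel.symm (hr : CMRel g x y) (hd : g.det ≠ 0) : CMRel g⁻¹ y x := by
  obtain ⟨c, hc, h⟩ := hr
  have hu : IsUnit g.det := isUnit_iff_ne_zero.2 hd
  refine ⟨fun γ => (c γ)⁻¹, fun γ => by rw [norm_inv, hc, inv_one], fun γ => ?_⟩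
  have h1 : g⁻¹ * y (some γ) = c γ • (x (some γ) * g⁻¹) := by
    calc g⁻¹ * y (some γ) = g⁻¹ * (y (some γ) * g * g⁻¹) := by
          rw [Matrix.mul_nonsing_inv_cancel_right g _ hu]
      _ = c γ • (x (some γ) * g⁻¹) := by
          rw [h, Matrix.smul_mul, Matrix.mul_smul, Matrix.mul_assoc,
            Matrix.nonsing_inv_mul_cancel_left g _ hu]
  rw [h1, smul_smul, inv_mul_cancel₀ (CMInv_ne (hc γ)), one_smul]

theorem CM_act_rel {u : Matrix (β ⊕ τ) (β ⊕ τ) ℂ} (hu : u ∈ D.K (one β)) (x : UU β Ar) :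
    CMRel (gau u) x (D.act u x) := by
  refine ⟨fun γ => chr (Sum.elim 0 (D.w3 (some γ))) u, fun γ => D.norm_chr_w3 hu _, fun γ => ?_⟩
  simp only [act]
  rw [Matrix.smul_mul, Matrix.mul_assoc, D.Basic_star_gau hu, Matrix.mul_one]

theorem CM_act_cj {u : Matrix (β ⊕ τ) (β ⊕ τ) ℂ} (hu : u ∈ D.K (one β)) (m : Matrix β β ℂ)
    (x : UU β Ar) : CMcj (gau u * m * star (gau u)) (D.act u x) = D.act u (CMcj m x) := by
  have h1 : star (gau u) * gau u = 1 := D.Basic_star_gau hu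
  have h2 : (gau u)⁻¹ = star (gau u) := Matrix.inv_eq_left_inv h1
  have h3 : (star (gau u))⁻¹ = gau u := Matrix.inv_eq_right_inv h1
  have h4 : (gau u * m * star (gau u))⁻¹ = gau u * m⁻¹ * star (gau u) := by
    rw [Matrix.mul_inv_rev, Matrix.mul_inv_rev, h2, h3, Matrix.mul_assoc]
  funext γ
  simp only [CMcj, act]
  rw [h4, Matrix.mul_smul, Matrix.smul_mul, Basic_conj_mul h1, Basic_conj_mul h1]

theorem CM_Xs_of_rel (hg : D.CMBlk g) (hd : g.det ≠ 0) (hr : CMRel g x y) (hx : x ∈ D.Xs th)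
    (hy : y ∈ D.U (one β)) : y ∈ D.Xs th := by
  obtain ⟨c, hc, h⟩ := hr
  refine ⟨hy, fun S hS hi => ?_⟩
  have hu : IsUnit g := (Matrix.isUnit_iff_isUnit_det g).2 (isUnit_iff_ne_zero.2 hd)
  have hT : D.Gr (S.comap g.mulVecLin) := hS.comap hg
  have hTi : InvXi x (S.comap g.mulVecLin) := by
    intro γ z hz
    have h1 : g.mulVec z ∈ S := hz
    have h2 : g * x (some γ) = (c γ)⁻¹ • (y (some γ) * g) := by
      rw [h, smul_smul, inv_mul_cancel₀ (CMInv_ne (hc γ)), one_smul]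
    change g.mulVec ((x (some γ)).mulVec z) ∈ S
    rw [Matrix.mulVec_mulVec, h2, Matrix.smul_mulVec, ← Matrix.mulVec_mulVec]
    exact S.smul_mem _ (hi γ _ h1)
  have hk : LinearMap.ker g.mulVecLin = ⊥ :=
    LinearMap.ker_eq_bot.2 (Matrix.mulVec_injective_iff_isUnit.2 hu)
  have hm : (S.comap g.mulVecLin).map g.mulVecLin = S :=
    Submodule.map_comap_eq_of_surjective (Matrix.mulVec_surjective_iff_isUnit.2 hu) S
  have h3 := (hT.map hg).2.2
  rw [hk, inf_bot_eq, D.dimS_bot, zero_add, hm] at h3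
  rw [← h3]
  exact hx.2 _ hT hTi

theorem CM_cj_mem_Xs (hg : D.CMBlk g) (hd : g.det ≠ 0) (hx : x ∈ D.Xs th) :
    CMcj g x ∈ D.Xs th :=
  D.CM_Xs_of_rel hg hd (CM_cj_rel hd x) hx (D.CM_cj_mem_U hg hx.1)

theorem CMInv_mu_cj (hd : g.det ≠ 0) (x : UU β Ar) : mu (CMcj g x) = g * mu x * g⁻¹ := by
  have hu : IsUnit g.det := isUnit_iff_ne_zero.2 hd
  have h1 : ∀ A B : Matrix β β ℂ, g * A * g⁻¹ * (g * B * g⁻¹) = g * (A * B) * g⁻¹ := by
    intro A B
    calc g * A * g⁻¹ * (g * B * g⁻¹) = g * A * (g⁻¹ * g) * B * g⁻¹ := by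
          simp only [Matrix.mul_assoc]
      _ = g * (A * B) * g⁻¹ := by
          rw [Matrix.nonsing_inv_mul g hu]
          simp only [Matrix.mul_assoc, Matrix.one_mul]
  rw [mu, mu, Matrix.mul_sum, Matrix.sum_mul]
  refine Finset.sum_congr rfl fun a _ => ?_
  simp only [CMcj]
  rw [h1, h1, Matrix.mul_sub, Matrix.sub_mul]

theorem CM_cj_mem_Z0 (hg : D.CMBlk g) (hd : g.det ≠ 0) (hx : x ∈ D.Z0 th) :
    CMcj g x ∈ D.Z0 th := by
  refine ⟨D.CM_cj_mem_Xs hg hd hx.1, ?_, ?_⟩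
  · rw [CMInv_mu_cj hd, hx.2.1, Matrix.mul_zero, Matrix.zero_mul]
  · change g * x none * g⁻¹ = 0
    rw [hx.2.2, Matrix.mul_zero, Matrix.zero_mul]

theorem CM_thd_dimv (q : Finset β) : thd th (D.dimv q) = ∑ k ∈ q, th (D.v k) := by
  rw [← Finset.sum_fiberwise q D.v, thd]
  refine Finset.sum_congr rfl fun i _ => ?_
  rw [Finset.sum_congr rfl fun k hk => congrArg th (Finset.mem_filter.1 hk).2, Finset.sum_const,
    nsmul_eq_mul, mul_comm]
  rfl

/-- A destabilising coordinate subspace is not invariant. -/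
theorem CM_gap (hg : D.Gen0 th k₀) (hx : x ∈ D.Xs th) {q : Finset β} (h0 : q.Nonempty)
    (h1 : q ≠ Finset.univ) (h : 0 ≤ ∑ k ∈ q, th (D.v k)) :
    0 < ∑ k ∈ qᶜ, ∑ l ∈ q, ∑ γ : Ar ⊕ Ar, ‖x (some γ) k l‖ ^ 2 := by
  have n3 : ∀ k l, 0 ≤ ∑ γ : Ar ⊕ Ar, ‖x (some γ) k l‖ ^ 2 := fun k l =>
    Finset.sum_nonneg fun γ _ => sq_nonneg _
  have n2 : ∀ k, 0 ≤ ∑ l ∈ q, ∑ γ : Ar ⊕ Ar, ‖x (some γ) k l‖ ^ 2 := fun k =>
    Finset.sum_nonneg fun l _ => n3 k l
  refine lt_of_le_of_ne (Finset.sum_nonneg fun k _ => n2 k) fun he => ?_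
  have hz : ∀ γ k l, k ∉ q → l ∈ q → x (some γ) k l = 0 := by
    intro γ k l hk hl
    have a1 := (Finset.sum_eq_zero_iff_of_nonneg fun k _ => n2 k).1 he.symm k
      (Finset.mem_compl.2 hk)
    have a2 := (Finset.sum_eq_zero_iff_of_nonneg fun l _ => n3 k l).1 a1 l hl
    have a3 := (Finset.sum_eq_zero_iff_of_nonneg fun γ _ => sq_nonneg _).1 a2 γ
      (Finset.mem_univ _)
    exact norm_eq_zero.1 (pow_eq_zero_iff two_ne_zero |>.1 a3)
  have hi : InvXi x (Vq q) := by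
    intro γ z hzq
    rw [Basic_mem_Vq] at hzq ⊢
    intro k hk
    refine Finset.sum_eq_zero fun l _ => ?_
    by_cases hl : l ∈ q
    · exact mul_eq_zero_of_left (hz γ k l hk hl) _
    · exact mul_eq_zero_of_right _ (hzq l hl)
  have hb : (Vq q : Submodule ℂ (β → ℂ)) ≠ ⊥ := by
    obtain ⟨l, hl⟩ := h0
    intro hb
    have a1 : (Pi.single l 1 : β → ℂ) ∈ Vq q := by
      rw [Basic_mem_Vq]
      intro k hk
      exact Pi.single_eq_of_ne (fun e : k = l => hk (by rw [e]; exact hl)) _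
    rw [hb, Submodule.mem_bot] at a1
    simpa using congrFun a1 l
  have ht : (Vq q : Submodule ℂ (β → ℂ)) ≠ ⊤ := by
    intro ht
    refine h1 (Finset.eq_univ_of_forall fun k => ?_)
    by_contra hk
    have a1 : (fun _ => 1 : β → ℂ) ∈ Vq q := by
      rw [ht]
      exact Submodule.mem_top
    exact one_ne_zero (Basic_mem_Vq.1 a1 k hk)
  have h2 := D.stable hg hx (D.gr_Vq q) hi hb ht
  rw [D.dimS_Vq, D.CM_thd_dimv] at h2
  exact absurd h (not_le.2 h2)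

/-- The stabiliser is trivial. -/
theorem CM_stab (hg : D.Gen0 th k₀) (hx : x ∈ D.Xs th) (hb : D.CMBlk g) (h1 : g k₀ k₀ = 1)
    (hc : ∀ γ, g * x (some γ) = x (some γ) * g) : g = 1 := by
  refine sub_eq_zero.1 (D.schur_zero hg hx hx (hb.sub D.CM_blk_one) (fun γ => ?_) ?_)
  · rw [Matrix.sub_mul, Matrix.mul_sub, hc, Matrix.one_mul, Matrix.mul_one]
  · rw [Matrix.sub_apply, h1, Matrix.one_apply_eq, sub_self]

end HD

end Pool.Agent.HK
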