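import Pool.Agent.P.MP_1206ce_ag.CM.Inv
import Pool.Agent.P.MP_1206ce_ag.CM.Ineq

/-! Existence and uniqueness of the minimum of the Kempf-Ness function. -/

open scoped Topology ComplexOrder
open Filter Set

noncomputable section

namespace Pool.Agent.HK

namespace HD

variable {β I Ar τ : Type} [Fintype β] [DecidableEq β] [Fintype I] [DecidableEq I] [Fintype Ar]
  [DecidableEq Ar] [Fintype τ] [DecidableEq τ] (D : HD β I Ar τ)

variable {th : I → ℤ} {k₀ : β} {x y : UU β Ar}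

omit [DecidableEq β] [DecidableEq Ar] in
theorem CMKN_sum (x : UU β Ar) :
    ∑ k, ∑ l, ∑ γ : Ar ⊕ Ar, ‖x (some γ) k l‖ ^ 2 = CMnsq x := by
  unfold CMnsq
  rw [Finset.sum_comm (s := Finset.univ (α := Ar ⊕ Ar))]
  exact Finset.sum_congr rfl fun k _ => Finset.sum_comm

theorem CMKN_det {k : Matrix β β ℂ} (hk : k ∈ Matrix.unitaryGroup β ℂ) : k.det ≠ 0 := by
  have h := congrArg Matrix.det (Matrix.mem_unitaryGroup_iff.1 hk)
  rw [Matrix.det_mul, Matrix.det_one] at h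
  exact left_ne_zero_of_mul_eq_one h

/-- A uniform gap on a compact set of stable points. -/
theorem CMKN_lam (hg : D.Gen0 th k₀) {C : Set (UU β Ar)} (hC : IsCompact C) (hX : C ⊆ D.Xs th)
    {S : ℝ} (hS : 0 ≤ S) : ∃ lam : ℝ, 0 ≤ lam ∧ ∀ y ∈ C, ∀ q : Finset β, q.Nonempty →
      q ≠ Finset.univ → 0 ≤ ∑ k ∈ q, th (D.v k) →
      S ≤ lam * ∑ k ∈ qᶜ, ∑ l ∈ q, ∑ γ : Ar ⊕ Ar, ‖y (some γ) k l‖ ^ 2 := by
  have h1 : ∀ q : Finset β, ∃ lam : ℝ, 0 ≤ lam ∧ ∀ y ∈ C, q.Nonempty →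
      q ≠ Finset.univ → 0 ≤ ∑ k ∈ q, th (D.v k) →
      S ≤ lam * ∑ k ∈ qᶜ, ∑ l ∈ q, ∑ γ : Ar ⊕ Ar, ‖y (some γ) k l‖ ^ 2 := by
    intro q
    by_cases hq : q.Nonempty ∧ q ≠ Finset.univ ∧ 0 ≤ ∑ k ∈ q, th (D.v k)
    · have hc : Continuous fun y : UU β Ar =>
          ∑ k ∈ qᶜ, ∑ l ∈ q, ∑ γ : Ar ⊕ Ar, ‖y (some γ) k l‖ ^ 2 := by
        refine continuous_finsetSum _ fun k _ => continuous_finsetSum _ fun l _ =>
          continuous_finsetSum _ fun γ _ => ?_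
        exact (((continuous_apply (some γ)).matrix_elem k l).norm).pow 2
      obtain ⟨m, hm, hm'⟩ := hC.exists_forall_le' hc.continuousOn (a := 0)
        fun y hy => D.CM_gap hg (hX hy) hq.1 hq.2.1 hq.2.2
      refine ⟨S / m, by positivity, fun y hy _ _ _ => ?_⟩
      calc S = S / m * m := by field_simp
        _ ≤ _ := mul_le_mul_of_nonneg_left (hm' y hy) (by positivity)
    · exact ⟨0, le_rfl, fun y _ h1 h2 h3 => (hq ⟨h1, h2, h3⟩).elim⟩
  choose f hf0 hf using h1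
  refine ⟨∑ q, f q, Finset.sum_nonneg fun q _ => hf0 q, fun y hy q h1 h2 h3 => ?_⟩
  refine (hf q y hy h1 h2 h3).trans (mul_le_mul_of_nonneg_right ?_ (by positivity))
  exact Finset.single_le_sum (fun q _ => hf0 q) (Finset.mem_univ q)

/-- Properness, uniformly on compact sets of stable points. -/
theorem CM_coercive (hg : D.Gen0 th k₀) {C : Set (UU β Ar)} (hC : IsCompact C)
    (hX : C ⊆ D.Xs th) (M : ℝ) : ∃ T : Set (Matrix β β ℂ), IsCompact T ∧ T ⊆ D.CMG k₀ ∧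
      ∀ x ∈ C, ∀ g ∈ D.CMG k₀, D.CMkn th x g ≤ M → g ∈ T := by
  have hU := D.CM_isCompact_unit
  have hC' := (hU.prod hC).image_of_continuousOn
    (CM_continuousOn_cj.mono fun p hp => CMKN_det hp.1.1)
  have hX' : (fun p : Matrix β β ℂ × UU β Ar => CMcj p.1 p.2) ''
      ({k : Matrix β β ℂ | k ∈ Matrix.unitaryGroup β ℂ ∧ D.CMBlk k} ×ˢ C) ⊆ D.Xs th := by
    rintro _ ⟨p, hp, rfl⟩
    exact D.CM_cj_mem_Xs hp.1.2 (CMKN_det hp.1.1) (hX hp.2)
  obtain ⟨lam, hl, hlam⟩ := D.CMKN_lam hg hC' hX'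
    (S := (∑ k, |((th (D.v k) : ℤ) : ℝ)|) + 1) (by positivity)
  obtain ⟨B, hB⟩ := hC.bddAbove_image (CM_continuous_nsq (β := β) (Ar := Ar)).continuousOn
  have hw : ∑ k, th (D.v k) = 0 := by rw [← D.CM_thd_dimv, hg.tot]
  set R : ℝ := (M + lam ^ 2 * B) / 2 with hR
  have hA : IsCompact ({a : β → ℝ | a k₀ = 0} ∩ Icc (fun _ => -R) fun _ => R) :=
    isCompact_Icc.inter_left (isClosed_eq (continuous_apply k₀) continuous_const)
  have hF : Continuous fun p : Matrix β β ℂ × (β → ℝ) × Matrix β β ℂ =>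
      p.1 * CMdg p.2.1 * p.2.2 :=
    (continuous_fst.mul (CM_continuous_dg.comp (continuous_fst.comp continuous_snd))).mul
      (continuous_snd.comp continuous_snd)
  refine ⟨_, (hU.prod (hA.prod hU)).image hF, ?_, fun x hx g hG hM => ?_⟩
  · rintro _ ⟨⟨k', a, k⟩, ⟨h1, h2, h3⟩, rfl⟩
    exact D.CM_mul_mem hg.single
      (D.CM_mul_mem hg.single (D.CM_unit_mem hg.single h1.2 h1.1) (D.CM_dg_mem.2 h2.1))
      (D.CM_unit_mem hg.single h3.2 h3.1)
  · obtain ⟨k, k', a, hk, hb, hk', hb', ha, rfl⟩ := D.CM_svd_mem hg.single hG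
    rw [D.CM_kn_svd hk hb hk' hb'] at hM
    have key : ∀ k₁ k₂, a k₁ - a k₂ ≤ R := by
      intro k₁ k₂
      have h1 := CM_ineq (fun i => th (D.v i)) hw
        (fun i l => ∑ γ : Ar ⊕ Ar, ‖CMcj k x (some γ) i l‖ ^ 2) (fun i l => by positivity) hl
        (hlam (CMcj k x) ⟨(k, x), ⟨⟨hk, hb⟩, hx⟩, rfl⟩) a k₁ k₂
      rw [CMKN_sum, CM_nsq_unit hk] at h1
      have h2 : lam ^ 2 * CMnsq x ≤ lam ^ 2 * B :=
        mul_le_mul_of_nonneg_left (hB ⟨x, hx, rfl⟩) (sq_nonneg lam)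
      linarith
    refine ⟨(k', a, k), ⟨⟨hk', hb'⟩, ⟨ha, fun i => ?_, fun i => ?_⟩, hk, hb⟩, rfl⟩
    · have h1 := key k₀ i
      show -R ≤ a i
      linarith
    · have h1 := key i k₀
      show a i ≤ R
      linarith

theorem CM_exists_min (hg : D.Gen0 th k₀) (hx : x ∈ D.Xs th) : ∃ g, D.CMMin th k₀ x g := by
  obtain ⟨T, hT, hTG, hm⟩ := D.CM_coercive hg (C := {x}) isCompact_singleton
    (singleton_subset_iff.2 hx) (D.CMkn th x 1)
  have h1 : (1 : Matrix β β ℂ) ∈ T := hm x rfl 1 D.CM_one_mem le_rfl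
  have hc : ContinuousOn (fun g => D.CMkn th x g) T := by
    have h2 : ContinuousOn (fun g : Matrix β β ℂ => (x, g)) T :=
      (Continuous.prodMk_right x).continuousOn
    have h3 := (D.CM_continuousOn_kn (th := th)).comp h2
      fun g hg' => ⟨(hTG hg').1, (hTG hg').2.1⟩
    exact h3.congr fun g _ => rfl
  obtain ⟨g, hgT, hmin⟩ := hT.exists_isMinOn ⟨1, h1⟩ hc
  refine ⟨g, hTG hgT, fun g' hg' => ?_⟩
  rcases le_total (D.CMkn th x g') (D.CMkn th x 1) with h | h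
  · exact hmin (hm x rfl g' hg' h)
  · exact (hmin h1).trans h

theorem CM_min_rel (hg : D.Gen0 th k₀) {g h : Matrix β β ℂ} (hG : g ∈ D.CMG k₀)
    (hr : CMRel g x y) (hm : D.CMMin th k₀ y h) : D.CMMin th k₀ x (h * g) := by
  refine ⟨D.CM_mul_mem hg.single hm.1 hG, fun g' hg' => ?_⟩
  have h1 := D.CM_mul_mem hg.single hg' (D.CM_inv_mem hg.single hG)
  have h2 := hm.2 _ h1
  rw [D.CM_kn_rel hG.1 hG.2.1 hr hm.1.1 hm.1.2.1, D.CM_kn_rel hG.1 hG.2.1 hr h1.1 h1.2.1,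
    Matrix.nonsing_inv_mul_cancel_right _ _ (Ne.isUnit hG.2.1)] at h2
  linarith

theorem CM_min_unique (hg : D.Gen0 th k₀) (hx : x ∈ D.Xs th) {g₁ g₂ : Matrix β β ℂ}
    (h₁ : D.CMMin th k₀ x g₁) (h₂ : D.CMMin th k₀ x g₂) : star g₁ * g₁ = star g₂ * g₂ := by
  have hd := h₁.1.2.1
  have hy : CMcj g₁ x ∈ D.Xs th := D.CM_cj_mem_Xs h₁.1.1 hd hx
  have hr : CMRel g₁⁻¹ (CMcj g₁ x) x := (CM_cj_rel hd x).symm hd
  have hi := D.CM_inv_mem hg.single h₁.1
  have m1 := D.CM_min_rel hg hi hr h₁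
  have m2 := D.CM_min_rel hg hi hr h₂
  rw [Matrix.mul_nonsing_inv _ (Ne.isUnit hd)] at m1
  generalize CMcj g₁ x = y at hy m1 m2
  obtain ⟨k, k', a, hk, hb, hk', hb', ha, he⟩ := D.CM_svd_mem hg.single m2.1
  have hone : (1 : Matrix β β ℂ) ∈ Matrix.unitaryGroup β ℂ := one_mem _
  have hmid : 1 * CMdg (fun i => a i / 2) * k ∈ D.CMG k₀ :=
    D.CM_mul_mem hg.single
      (D.CM_mul_mem hg.single D.CM_one_mem (D.CM_dg_mem.2 (by simp [ha])))
      (D.CM_unit_mem hg.single hb hk)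
  have e1 : (1 : Matrix β β ℂ) = star k * CMdg 0 * k := by
    rw [CM_dg_zero, mul_one, Matrix.mem_unitaryGroup_iff'.1 hk]
  have a1 := m1.2 _ hmid
  have a2 := m2.2 _ hmid
  rw [D.CM_kn_svd hk hb hone D.CM_blk_one] at a1 a2
  rw [he, D.CM_kn_svd hk hb hk' hb'] at a2
  rw [e1, D.CM_kn_svd hk hb (Unitary.star_mem hk) hb.star] at a1
  have hz : CMcj k y ∈ D.Xs th := D.CM_cj_mem_Xs hb (CMKN_det hk) hy
  generalize CMcj k y = z at hz a1 a2
  set c : β → β → ℝ := fun i l => ∑ γ : Ar ⊕ Ar, ‖z (some γ) i l‖ ^ 2 with hc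
  have hc0 : ∀ i l, 0 ≤ c i l := fun i l => by positivity
  have hsum : ∑ i, ∑ l, c i l * (1 - Real.exp (a i - a l)) ^ 2 ≤ 0 := by
    have b1 : ∑ i, ∑ l, c i l * (1 - Real.exp (a i - a l)) ^ 2 =
        ∑ i, ∑ l, c i l * Real.exp (2 * ((0 : β → ℝ) i - (0 : β → ℝ) l)) +
          ∑ i, ∑ l, c i l * Real.exp (2 * (a i - a l)) -
          2 * ∑ i, ∑ l, c i l * Real.exp (2 * (a i / 2 - a l / 2)) := by
      simp only [Finset.mul_sum, ← Finset.sum_add_distrib, ← Finset.sum_sub_distrib]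
      refine Finset.sum_congr rfl fun i _ => Finset.sum_congr rfl fun l _ => ?_
      have c1 : Real.exp (2 * (a i - a l)) = Real.exp (a i - a l) ^ 2 := by
        rw [← Real.exp_nat_mul]
        norm_num
      have c2 : 2 * (a i / 2 - a l / 2) = a i - a l := by ring
      rw [c1, c2]
      simp only [Pi.zero_apply, sub_self, mul_zero, Real.exp_zero]
      ring
    have b2 : ∑ i, (th (D.v i) : ℝ) * a i = 2 * ∑ i, (th (D.v i) : ℝ) * (a i / 2) := by
      rw [Finset.mul_sum]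
      exact Finset.sum_congr rfl fun i _ => by ring
    have b3 : ∑ i, (th (D.v i) : ℝ) * (0 : β → ℝ) i = 0 := by simp
    rw [b1]
    linarith
  have hterm : ∀ i l, c i l * (1 - Real.exp (a i - a l)) ^ 2 = 0 := by
    intro i l
    have t1 : ∀ i l, 0 ≤ c i l * (1 - Real.exp (a i - a l)) ^ 2 := fun i l =>
      mul_nonneg (hc0 i l) (sq_nonneg _)
    refine le_antisymm (le_trans ?_ hsum) (t1 i l)
    exact (Finset.single_le_sum (fun l _ => t1 i l) (Finset.mem_univ l)).trans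
      (Finset.single_le_sum (f := fun i => ∑ l, c i l * (1 - Real.exp (a i - a l)) ^ 2)
        (fun i _ => Finset.sum_nonneg fun l _ => t1 i l) (Finset.mem_univ i))
  have hcomm : ∀ γ, CMdg a * z (some γ) = z (some γ) * CMdg a := by
    intro γ
    ext i l
    unfold CMdg
    rw [Matrix.diagonal_mul, Matrix.mul_diagonal]
    rcases mul_eq_zero.1 (hterm i l) with h | h
    · have h1 : ‖z (some γ) i l‖ ^ 2 = 0 :=
        (Finset.sum_eq_zero_iff_of_nonneg fun γ _ => by positivity).1 h γ (Finset.mem_univ γ)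
      rw [norm_eq_zero.1 (pow_eq_zero_iff two_ne_zero |>.1 h1), mul_zero, zero_mul]
    · have h1 : Real.exp (a i - a l) = 1 := by
        have := pow_eq_zero_iff two_ne_zero |>.1 h
        linarith
      rw [sub_eq_zero.1 (Real.exp_eq_one_iff _ |>.1 h1), mul_comm]
  have hdg : CMdg a = 1 := D.CM_stab hg hz (D.CM_blk_diagonal _) (by simp [CMdg, ha]) hcomm
  rw [hdg, mul_one] at he
  have e2 : g₂ = k' * k * g₁ := by
    rw [← he, Matrix.nonsing_inv_mul_cancel_right _ _ (Ne.isUnit hd)]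
  have e3 : star (k' * k) * (k' * k) = 1 := Matrix.mem_unitaryGroup_iff'.1 (mul_mem hk' hk)
  rw [e2, star_mul (k' * k), mul_assoc (star g₁), ← mul_assoc (star (k' * k)), e3, one_mul]

end HD

end Pool.Agent.HK
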