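import Pool.Agent.P.MP_1206ce_ag.CM.Inv

/-! The orbit space and the action of the flavour torus on it. -/

open scoped Topology ComplexOrder
open Filter Set

noncomputable section

namespace Pool.Agent.HK

namespace Qv

variable (Q : Qv)

theorem CM_mem_GG {g : Q.Mat} : g ∈ Q.GG ↔ Q.hd.CMBlk g ∧ g.det ≠ 0 ∧ g none none = 1 := ⟨fun h => ⟨fun k l hk => by_contra fun hn => hk (h.2.1 k l hn), h.1, h.2.2⟩,
    fun h => ⟨h.2.1, fun k l hn => by_contra fun hk => hn (h.1 k l hk), h.2.2⟩⟩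

theorem CM_single (l : Option (Fin Q.nB)) (h : Q.hd.v l = Q.hd.v none) : l = none := by
  cases l with
  | none => rfl
  | some k => exact absurd h (Option.some_ne_none _)

theorem CMOrb_one : (1 : Q.Mat) ∈ Q.GG :=
  Q.CM_mem_GG.2 ⟨Q.hd.CM_blk_one, by simp, Matrix.one_apply_eq _⟩

theorem CMOrb_mul {g g' : Q.Mat} (hg : g ∈ Q.GG) (hg' : g' ∈ Q.GG) : g * g' ∈ Q.GG := by
  rw [CM_mem_GG] at hg hg' ⊢
  refine ⟨hg.1.mul hg'.1, by rw [Matrix.det_mul]; exact mul_ne_zero hg.2.1 hg'.2.1, ?_⟩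
  rw [(hg.1.mul_single Q.CM_single g').1, hg.2.2, hg'.2.2, one_mul]

theorem CMOrb_inv {g : Q.Mat} (hg : g ∈ Q.GG) : g⁻¹ ∈ Q.GG := by
  rw [CM_mem_GG] at hg ⊢
  refine ⟨hg.1.inv, (Matrix.isUnit_nonsing_inv_det g (Ne.isUnit hg.2.1)).ne_zero, ?_⟩
  rw [hg.1.inv_single Q.CM_single hg.2.1, hg.2.2, inv_one]

theorem CMOrb_cj {g a b : Q.Mat} (hd : g.det ≠ 0) : g * a = b * g ↔ b = g * a * g⁻¹ := by
  constructor
  · intro h
    rw [h, Matrix.mul_nonsing_inv_cancel_right _ _ (Ne.isUnit hd)]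
  · rintro rfl
    rw [Matrix.nonsing_inv_mul_cancel_right _ _ (Ne.isUnit hd)]

theorem CMOrb_symm {g a b : Q.Mat} (hd : g.det ≠ 0) (h : g * a = b * g) : g⁻¹ * b = a * g⁻¹ := by
  rw [(Q.CMOrb_cj hd).1 h, Matrix.mul_assoc, Matrix.nonsing_inv_mul_cancel_left _ _ (Ne.isUnit hd)]

theorem CMOrb_trans {g g' a b c : Q.Mat} (h : g * a = b * g) (h' : g' * b = c * g') :
    g' * g * a = c * (g' * g) := by
  rw [Matrix.mul_assoc, h, ← Matrix.mul_assoc, h', Matrix.mul_assoc]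

theorem CMOrb_eqv : Equivalence fun p q : Q.Arr × Q.Arr =>
    ∃ g ∈ Q.GG, ∀ h, g * p.1 h = q.1 h * g ∧ g * p.2 h = q.2 h * g :=
  ⟨fun _ => ⟨1, Q.CMOrb_one, fun _ => by simp⟩,
    fun ⟨g, hg, h⟩ => ⟨g⁻¹, Q.CMOrb_inv hg, fun a =>
      ⟨Q.CMOrb_symm hg.1 (h a).1, Q.CMOrb_symm hg.1 (h a).2⟩⟩,
    fun ⟨g, hg, h⟩ ⟨g', hg', h'⟩ => ⟨g' * g, Q.CMOrb_mul hg' hg, fun a =>
      ⟨Q.CMOrb_trans (h a).1 (h' a).1, Q.CMOrb_trans (h a).2 (h' a).2⟩⟩⟩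

theorem CM_omk_eq_iff {p q : Q.Arr × Q.Arr} : Q.CMomk p = Q.CMomk q ↔
    ∃ g ∈ Q.GG, ∀ h, g * p.1 h = q.1 h * g ∧ g * p.2 h = q.2 h * g := 
  Quot.eq.trans Q.CMOrb_eqv.eqvGen_iff

theorem CM_omk_out (m : Q.Orb) : Q.CMomk (Quot.out m) = m := Quot.out_eq m

theorem CM_continuous_omk : Continuous Q.CMomk := continuous_quot_mk

theorem CM_isOpenMap_omk : IsOpenMap Q.CMomk := by
  intro O hO
  refine (isQuotientMap_quot_mk.isOpen_preimage (s := Q.CMomk '' O)).1 ?_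
  have e : Q.CMomk ⁻¹' (Q.CMomk '' O) = ⋃ g ∈ Q.GG, (fun q : Q.Arr × Q.Arr =>
      ((fun h => g * q.1 h * g⁻¹, fun h => g * q.2 h * g⁻¹) : Q.Arr × Q.Arr)) ⁻¹' O := by
    ext q
    simp only [mem_preimage, mem_image, mem_iUnion, exists_prop]
    constructor
    · rintro ⟨p, hp, h⟩
      obtain ⟨g, hg, h1⟩ := Q.CM_omk_eq_iff.1 h.symm
      refine ⟨g, hg, ?_⟩
      rwa [← funext fun a => (Q.CMOrb_cj hg.1).1 (h1 a).1,
        ← funext fun a => (Q.CMOrb_cj hg.1).1 (h1 a).2]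
    · rintro ⟨g, hg, h⟩
      exact ⟨_, h, (Q.CM_omk_eq_iff.2 ⟨g, hg, fun a =>
        ⟨(Q.CMOrb_cj hg.1).2 rfl, (Q.CMOrb_cj hg.1).2 rfl⟩⟩).symm⟩
  change IsOpen (Q.CMomk ⁻¹' (Q.CMomk '' O))
  rw [e]
  exact isOpen_biUnion fun g _ => hO.preimage (by fun_prop)

theorem CM_actM_omk (t : Q.CMT) (p : Q.Arr × Q.Arr) :
    Q.actM t (Q.CMomk p) = Q.CMomk (Q.CMscl t p) := by
  obtain ⟨g, hg, h⟩ := Q.CM_omk_eq_iff.1 (Q.CM_omk_out (Q.CMomk p))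
  change Q.CMomk (Q.CMscl t (Quot.out (Q.CMomk p))) = _
  refine Q.CM_omk_eq_iff.2 ⟨g, hg, fun a => ?_⟩
  simp only [CMscl, Matrix.mul_smul, Matrix.smul_mul, (h a).1, (h a).2, and_self]

theorem CM_norm_chi {t : Q.CMT} (ht : t ∈ Q.FF) (h : Fin Q.nA) :
    ‖Q.chi (fun a => t a a) h‖ = 1 := norm_chr (Q.wt h) ht

theorem CM_isAct_actM : IsAct Q.FF Q.actM := by
  refine ⟨isGrp_KG id, fun m => ?_, fun u hu v hv m => ?_, ?_⟩
  · rw [← Q.CM_omk_out m, CM_actM_omk]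
    have e : ∀ h, Q.chi (fun a => (1 : Q.CMT) a a) h = 1 := fun h => chr_one (Q.wt h)
    simp only [CMscl, e, inv_one, one_smul]
  · rw [← Q.CM_omk_out m, CM_actM_omk, CM_actM_omk, CM_actM_omk]
    have e : ∀ h, Q.chi (fun a => (u * v) a a) h
        = Q.chi (fun a => u a a) h * Q.chi (fun a => v a a) h := fun h => chr_mul (Q.wt h) hu hv
    simp only [CMscl, e, mul_inv, smul_smul]
  · have hc : ∀ h, ContinuousOn (fun p : Q.CMT × Q.Arr × Q.Arr => Q.chi (fun a => p.1 a a) h)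
        (Q.FF ×ˢ univ) := fun h =>
      continuousOn_finsetProd _ fun a _ => ContinuousOn.zpow₀ (by fun_prop) _
        fun p hp => Or.inl (Top_diag_ne hp.1 a)
    refine Top_contOn (IsOpenMap.id.prodMap Q.CM_isOpenMap_omk) (P := Q.FF ×ˢ univ)
      (F := fun p => Q.CMomk (Q.CMscl p.1 p.2))
      (fun b hb => ⟨(b.1, Quot.out b.2), ⟨hb.1, trivial⟩, Prod.ext rfl (Q.CM_omk_out _)⟩)
      (fun a ha => ⟨ha.1, trivial⟩) (fun a _ => Q.CM_actM_omk _ _)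
      (Q.CM_continuous_omk.comp_continuousOn (ContinuousOn.prodMk
        (continuousOn_pi.2 fun h => (hc h).smul (by fun_prop))
        (continuousOn_pi.2 fun h => ((hc h).inv₀ fun p hp h0 => ?_).smul (by fun_prop))))
    have h1 := Q.CM_norm_chi hp.1 h
    rw [h0, norm_zero] at h1
    exact zero_ne_one h1

theorem CM_prs_ex (p : Q.Arr × Q.Arr) : Q.CMprs (Q.CMex p) = p := rfl

theorem CM_ex_prs {x : Q.CMU} (hx : x none = 0) : Q.CMex (Q.CMprs x) = x := by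
  funext γ
  rcases γ with _ | h | h
  · exact hx.symm
  · rfl
  · rfl

theorem CM_continuous_prs : Continuous Q.CMprs := by
  unfold CMprs
  fun_prop

theorem CM_continuous_ex : Continuous Q.CMex := by
  refine continuous_pi fun γ => ?_
  rcases γ with _ | h | h
  · exact continuous_const
  · exact (continuous_apply h).comp continuous_fst
  · exact (continuous_apply h).comp continuous_snd

theorem CM_prs_mem {θ : Fin Q.nI → ℤ} {x : Q.CMU} (hx : x ∈ Q.hd.Z0 (Q.thb θ)) :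
    Q.CMprs x ∈ Q.Zss θ := by
  have hU := Q.hd.CM_mem_U.1 hx.1.1
  refine ⟨fun h l k hn => ?_, fun h l k hn => ?_, fun k l => ?_, fun S hS hI => ?_⟩
  · exact of_decide_eq_true (hU (some (Sum.inl h)) l k hn)
  · exact of_decide_eq_true (hU (some (Sum.inr h)) l k hn)
  · exact congrFun (congrFun hx.2.1 (some k)) (some l)
  · refine hx.1.2 S hS fun γ z hz => ?_
    rcases γ with h | h
    · exact (hI h z hz).1
    · exact (hI h z hz).2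

theorem CM_ex_mem {θ : Fin Q.nI → ℤ} {p : Q.Arr × Q.Arr} (hp : p ∈ Q.Zss θ) :
    Q.CMex p ∈ Q.hd.Z0 (Q.thb θ) := by
  have hU : Q.CMex p ∈ Q.hd.U (HD.one _) := Q.hd.CM_mem_U.2 fun γ l k hn => by
    rcases γ with _ | h | h
    · exact absurd rfl hn
    · exact decide_eq_true (hp.1 h l k hn)
    · exact decide_eq_true (hp.2.1 h l k hn)
  refine ⟨⟨hU, fun S hS hI => hp.2.2.2 S hS fun h z hz =>
    ⟨hI (Sum.inl h) z hz, hI (Sum.inr h) z hz⟩⟩, ?_, rfl⟩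
  have h1 : ∀ k l, HD.mu (Q.CMex p) (some k) (some l) = 0 := hp.2.2.1
  ext k l
  by_contra hn
  have h2 := (Q.hd.mu_block hU hn).1
  rcases k with _ | k
  · rw [Q.CM_single l h2.symm] at hn
    have h3 := HD.trace_mu (Q.CMex p)
    rw [Matrix.trace, Fintype.sum_option] at h3
    simp only [Matrix.diag_apply, h1, Finset.sum_const_zero, add_zero] at h3
    exact hn h3
  · rcases l with _ | l
    · exact Option.some_ne_none _ (Q.CM_single _ h2)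
    · exact hn (h1 k l)

theorem CM_omk_cj {g : Q.Mat} (hg : g ∈ Q.GG) (x : Q.CMU) :
    Q.CMomk (Q.CMprs (HD.CMcj g x)) = Q.CMomk (Q.CMprs x) := 
  (Q.CM_omk_eq_iff.2 ⟨g, hg, fun _ => ⟨(Q.CMOrb_cj hg.1).2 rfl, (Q.CMOrb_cj hg.1).2 rfl⟩⟩).symm

theorem CM_omk_mem {θ : Fin Q.nI → ℤ} {p : Q.Arr × Q.Arr} :
    Q.CMomk p ∈ Q.MM θ ↔ p ∈ Q.Zss θ := by
  refine ⟨fun ⟨q, hq, h⟩ => ?_, fun hp => ⟨p, hp, rfl⟩⟩
  obtain ⟨g, hg, h1⟩ := Q.CM_omk_eq_iff.1 (h.symm : Q.CMomk q = Q.CMomk p)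
  have h2 := Q.CM_prs_mem
    (Q.hd.CM_cj_mem_Z0 (Q.CM_mem_GG.1 hg).1 hg.1 (Q.CM_ex_mem hq))
  have e : Q.CMprs (HD.CMcj g (Q.CMex q)) = p :=
    Prod.ext (funext fun a => ((Q.CMOrb_cj hg.1).1 (h1 a).1).symm)
      (funext fun a => ((Q.CMOrb_cj hg.1).1 (h1 a).2).symm)
  rwa [e] at h2

theorem CM_scl_mem {θ : Fin Q.nI → ℤ} {t : Q.CMT} (ht : t ∈ Q.FF) {p : Q.Arr × Q.Arr}
    (hp : p ∈ Q.Zss θ) : Q.CMscl t p ∈ Q.Zss θ := by
  have hc : ∀ h, Q.chi (fun a => t a a) h ≠ 0 := fun h h0 => by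
    have h1 := Q.CM_norm_chi ht h
    rw [h0, norm_zero] at h1
    exact zero_ne_one h1
  refine ⟨fun h l k hn => hp.1 h l k (right_ne_zero_of_mul hn),
    fun h l k hn => hp.2.1 h l k (right_ne_zero_of_mul hn), fun k l => ?_,
    fun S hS hI => hp.2.2.2 S hS fun h z hz => ?_⟩
  · simp only [CMscl, Matrix.mul_smul, Matrix.smul_mul, smul_smul, inv_mul_cancel₀ (hc _),
      mul_inv_cancel₀ (hc _), one_smul]
    exact hp.2.2.1 k l
  · obtain ⟨h1, h2⟩ := hI h z hz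
    simp only [CMscl, Matrix.smul_mulVec] at h1 h2
    exact ⟨(S.smul_mem_iff (hc h)).1 h1, (S.smul_mem_iff (inv_ne_zero (hc h))).1 h2⟩

theorem CM_invX_MM (θ : Fin Q.nI → ℤ) : InvX Q.FF Q.actM (Q.MM θ) := by
  rintro u hu _ ⟨p, hp, rfl⟩
  exact ⟨_, Q.CM_scl_mem hu hp, Q.CM_actM_omk u p⟩

end Qv

end Pool.Agent.HK
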