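import Pool.Agent.P.MP_1206ce_ag.CM.Grp

/-! Step 1: forgetting the gauge columns and the frozen columns of the frame. -/

open scoped Topology ComplexOrder
open Filter Set

noncomputable section

namespace Pool.Agent.HK

namespace Qv

variable (Q : Qv)

theorem CM_free {θ : Fin Q.nI → ℤ} (hθ : Q.Generic θ) {n : ℕ} {p : Q.CMU × Fr Q.HV}
    (hp : p ∈ Q.hd.Z0 (Q.thb θ) ×ˢ Q.CMEF n) {u : Matrix Q.HV Q.HV ℂ} (hu : u ∈ Q.K3)
    (h : bact Q.hd.act u p = p) : u = 1 := by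
  obtain ⟨hx, e, he, hpe⟩ := hp
  have h1 : Q.hd.act u p.1 = p.1 := congrArg Prod.fst h
  have h2 : frAct u p.2 = p.2 := congrArg Prod.snd h
  rw [← hpe, Q.CM_ext_frAct hu] at h2
  have h3 : frAct (Q.CMresM u) e = e := by
    have h4 := congrArg Q.CMres h2
    rwa [Q.CM_res_ext, Q.CM_res_ext] at h4
  have h4 : Q.CMresM u = 1 :=
    freeOn_Inj (lab := id) Subset.rfl n _ (Q.CM_resM_mem hu) e (St_subset_Inj _ n he) h3
  obtain ⟨g1, g2, g3⟩ := Q.CM_gau_mem hu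
  have hchi : ∀ a, Q.chi (fun a => Q.CMresM u a a) a = 1 := fun a => by
    rw [h4]
    simp [Qv.chi]
  have hs : star (HD.gau u) * HD.gau u = 1 := Matrix.mem_unitaryGroup_iff'.1 g1
  have key : ∀ y : Q.Mat, HD.gau u * y * star (HD.gau u) = y → HD.gau u * y = y * HD.gau u :=
    fun y hy => by
      conv_rhs => rw [← hy]
      rw [mul_assoc (HD.gau u * y), hs, mul_one]
  have h5 : HD.gau u = 1 := by
    refine Q.hd.CM_stab (Q.gen0 hθ) hx.1 g2 g3 fun γ => key _ ?_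
    rcases γ with a | a
    · have h6 := ((Q.CM_act_apply hu p.1).2 a).1
      rw [h1, hchi, one_smul] at h6
      exact h6.symm
    · have h6 := ((Q.CM_act_apply hu p.1).2 a).2
      rw [h1, hchi, inv_one, one_smul] at h6
      exact h6.symm
  rw [Q.CM_eq_mkU hu, h4, h5, Q.CM_mkU_one]

theorem CMS1_inv (θ : Fin Q.nI → ℤ) (n : ℕ) :
    Inv Q.K3 Q.hd.act (Q.hd.Z0 (Q.thb θ) ×ˢ St Q.hd.lab0 n) :=
  Inv.prod (fun u hu => Q.hd.invX_Z0 _ u (Q.CM_K3_subset hu)) (invF_St Q.CM_K3_subset n)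

theorem CMS1_cont :
    Continuous (Prod.map id (Q.CMext ∘ Q.CMres) : Q.CMU × Fr Q.HV → Q.CMU × Fr Q.HV) :=
  continuous_id.prodMap (Q.CM_continuous_ext.comp Q.CM_continuous_res)

theorem CMS1_proper (S : Set Q.CMU) (n : ℕ) :
    ProperOn (Prod.map id (Q.CMext ∘ Q.CMres)) (S ×ˢ St Q.hd.lab0 n) (S ×ˢ Q.CMEF n) := by
  refine ⟨Q.CMS1_cont.continuousOn, fun p hp => ⟨hp.1, _, Q.CM_res_mem hp.2, rfl⟩,
    fun C hC hCS => ?_⟩
  refine ClosedIn.isCompact (A := S ×ˢ St Q.hd.lab0 n)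
    ⟨_, hC.isClosed.preimage Q.CMS1_cont, rfl⟩
    ((hC.image continuous_fst).prod (isCompact_St Q.hd.lab0 n)) ?_ ?_
  · rintro ⟨x, e⟩ ⟨⟨q, hq, hx⟩, he⟩
    exact ⟨hx ▸ (hCS hq).1, he⟩
  · exact fun p hp => ⟨⟨_, hp.2, rfl⟩, hp.1.2⟩

/-- The fibres of the map of pairs are Stiefel completions. -/
theorem CMS1_fibre {S : Set Q.CMU} {n : ℕ} (hn : Fintype.card Q.HV ≤ n) {p : Q.CMU × Fr Q.HV}
    (hp : p ∈ S ×ˢ Q.CMEF n) :
    AcycBelow (rng Q.HV n)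
      (S ×ˢ St Q.hd.lab0 n ∩ Prod.map id (Q.CMext ∘ Q.CMres) ⁻¹' {p}) := by
  obtain ⟨x, e'⟩ := p
  obtain ⟨hx, e, he, rfl⟩ := hp
  obtain ⟨e₀, he₀, hag⟩ := exists_completion Q.hd.lab0 hn (range fun a => Q.inc (Sum.inr a))
    (e₁ := Q.CMext e) (by
      rintro _ ⟨a, rfl⟩ j hj
      rw [Q.CM_ext_apply, he.1 j hj]
      rfl) (by
      rintro _ ⟨a, rfl⟩ _ ⟨b, rfl⟩ hab
      have h1 : a = b := Sum.inr_injective ((Q.inc_lab _ _).1 hab)
      subst h1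
      simp only [Q.CM_ext_apply]
      rw [he.2 a a rfl, if_pos rfl, if_pos trivial])
  have hres : ∀ f : Fr Q.HV, Q.CMext (Q.CMres f) = Q.CMext e ↔
      ∀ k ∈ range fun a => Q.inc (Sum.inr a), ∀ j, f j k = e₀ j k := fun f => by
    constructor
    · rintro h _ ⟨a, rfl⟩ j
      rw [hag _ ⟨a, rfl⟩, ← h, Q.CM_ext_apply]
      rfl
    · intro h
      congr 1
      funext j a
      have h1 := h _ ⟨a, rfl⟩ j
      rw [hag _ ⟨a, rfl⟩, Q.CM_ext_apply] at h1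
      exact h1
  refine AcycBelow.of_homeoOn (f := Prod.snd) (g := fun f => (x, f)) ?_
    (acyc_completion Q.hd.lab0 n (range fun a => Q.inc (Sum.inr a)) he₀)
  exact ⟨continuousOn_snd, by fun_prop,
    fun q hq => ⟨hq.1.2, (hres _).1 (congrArg Prod.snd hq.2)⟩,
    fun f hf => ⟨⟨hx, hf.1⟩, Prod.ext rfl ((hres _).2 hf.2)⟩,
    fun q hq => Prod.ext (congrArg Prod.fst hq.2).symm rfl, fun _ _ => rfl⟩

theorem CM_step1 {θ : Fin Q.nI → ℤ} (hθ : Q.Generic θ) (n : ℕ) :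
    IsoBelow (rng Q.HV n) Q.CMprj
      (BS Q.K3 Q.hd.act (Q.hd.Z0 (Q.thb θ)) (St Q.hd.lab0 n))
      (BS Q.K3 Q.hd.act (Q.hd.Z0 (Q.thb θ)) (Q.CMEF n)) := by
  have ha := Q.CM_isAct_K3
  have hP := Q.CMS1_inv θ n
  have hF := Q.CM_eqv_prj.mono (subset_univ (Q.hd.Z0 (Q.thb θ) ×ˢ St Q.hd.lab0 n))
  have hlc := Q.CM_lc_EF θ n
  rw [BS_eq] at hlc
  rw [BS_eq, BS_eq]
  have hπ : ProperOn Q.CMprj _ _ :=
    ha.properOn_bmp ha hP (Q.CM_inv_EF θ n) hF (Q.CMS1_proper _ n)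
  by_cases hn : Fintype.card Q.HV ≤ n
  · have := Q.CM_nice
    refine isoBelow_of_vb hlc
      (ha.lc_BI hP ((Q.hd.lc_Z0 _).prod (LC.of_isCompact (isCompact_St _ n)))) hπ ?_
    rintro _ ⟨p, hp, rfl⟩
    have heq : ∀ u ∈ Q.K3, ∀ q : Q.CMU × Fr Q.HV,
        Prod.map id (Q.CMext ∘ Q.CMres) (bact Q.hd.act u q) =
          bact Q.hd.act u (Prod.map id (Q.CMext ∘ Q.CMres) q) := fun u hu q => by
      refine Prod.ext rfl ?_
      change Q.CMext (Q.CMres (frAct u q.2)) = frAct u (Q.CMext (Q.CMres q.2))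
      rw [Q.CM_res_frAct hu, Q.CM_ext_frAct hu]
    obtain ⟨g, hg⟩ := ha.fibre_bmp ha hP hF Q.CMS1_cont.continuousOn p
      (fun q _ u hu h => ⟨star u, ha.grp.star u hu, by
        rw [heq _ (ha.grp.star u hu), h, (ha.bact_star hu p).1]⟩)
      (fun q _ u hu h1 h2 => by
        rw [heq u hu, h1] at h2
        rw [Q.CM_free hθ hp hu h2, ha.bact_one])
    exact AcycBelow.of_homeoOn hg.symm (Q.CMS1_fibre hn hp)
  · have hneg : rng Q.HV n < 0 := by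
      unfold rng
      omega
    refine ⟨hπ.1, hπ.2.1, fun k hk w hw hom => ⟨0, zero_mem _, HomC.zero k, ?_⟩,
      fun k hk w hw hom _ => ?_⟩
    · rw [hom.eq_zero hw.1.1.1 (hk.trans hneg)]
      exact sub_mem (zero_mem _) (zero_mem _)
    · rw [hom.eq_zero hw.1.1.1 (hk.trans hneg)]
      exact zero_mem _

end Qv

end Pool.Agent.HK
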