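import Pool.Agent.P.MP_1206ce_ag.CM.Grp
import Pool.Agent.P.MP_1206ce_ag.CM.Gauge

/-! Step 2: from the compact gauge group to the complex gauge group. -/

open scoped Topology ComplexOrder
open Filter Set

noncomputable section

namespace Pool.Agent.HK

theorem CMS2_alg {β : Type} [Fintype β] [DecidableEq β] {r r' g A A' : Matrix β β ℂ} {c : ℂ}
    (hr : r.det ≠ 0) (hg : g.det ≠ 0) (hu : r' * g * r⁻¹ ∈ Matrix.unitaryGroup β ℂ)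
    (h : A' * g = c • (g * A)) :
    c • (r' * g * r⁻¹ * (r * A * r⁻¹) * star (r' * g * r⁻¹)) = r' * A' * r'⁻¹ := by
  have h1 : star (r' * g * r⁻¹) = (r' * g * r⁻¹)⁻¹ :=
    (Matrix.inv_eq_left_inv (Matrix.mem_unitaryGroup_iff'.1 hu)).symm
  have h2 : r⁻¹ * r = 1 := Matrix.nonsing_inv_mul _ hr.isUnit
  have h3 : g * g⁻¹ = 1 := Matrix.mul_nonsing_inv _ hg.isUnit
  have h4 : r⁻¹⁻¹ = r := Matrix.nonsing_inv_nonsing_inv _ hr.isUnit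
  rw [h1, Matrix.mul_inv_rev, Matrix.mul_inv_rev, h4]
  calc c • (r' * g * r⁻¹ * (r * A * r⁻¹) * (r * (g⁻¹ * r'⁻¹)))
      = c • (r' * g * (r⁻¹ * r) * A * (r⁻¹ * r) * g⁻¹ * r'⁻¹) := by simp only [mul_assoc]
    _ = r' * (c • (g * A)) * g⁻¹ * r'⁻¹ := by
        rw [h2]
        simp only [mul_one, mul_assoc, Matrix.mul_smul, Matrix.smul_mul]
    _ = r' * A' * (g * g⁻¹) * r'⁻¹ := by rw [← h]; simp only [mul_assoc]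
    _ = r' * A' * r'⁻¹ := by rw [h3, mul_one]

theorem CMS2_cj {β Ar Z : Type} [Fintype β] [DecidableEq β] [Fintype Ar] [DecidableEq Ar]
    [TopologicalSpace Z] {m : Z → Matrix β β ℂ} {x : Z → HD.UU β Ar} {S : Set Z}
    (hm : ContinuousOn m S) (hx : ContinuousOn x S) (hd : ∀ z ∈ S, (m z).det ≠ 0) :
    ContinuousOn (fun z => HD.CMcj (m z) (x z)) S :=
  ContinuousOn.comp (g := fun p : Matrix β β ℂ × HD.UU β Ar => HD.CMcj p.1 p.2)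
    (f := fun z => (m z, x z)) HD.CM_continuousOn_cj (hm.prodMk hx) hd

namespace Qv

variable (Q : Qv)

section gauge

variable {θ : Fin Q.nI → ℤ} {ρ : Q.CMU → Q.Mat}

/-- The balanced representative of a pair, with a flavour frame. -/
def CMS2_F (ρ : Q.CMU → Q.Mat) (a : (Q.Arr × Q.Arr) × Fr (Fin Q.nT)) : Bor Q.K3 Q.hd.act :=
  bmk Q.K3 Q.hd.act (HD.CMcj (ρ (Q.CMex a.1)) (Q.CMex a.1), Q.CMext a.2)

/-- The section. -/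
def CMS2_s (ρ : Q.CMU → Q.Mat) (q : Q.YM) : Bor Q.K3 Q.hd.act :=
  Q.CMS2_F ρ (Quot.out (Quot.out q).1, (Quot.out q).2)

theorem CMS2_det (hρ : Q.hd.IsGauge (Q.thb θ) none ρ) {x : Q.CMU} (hx : x ∈ Q.hd.Xs (Q.thb θ)) :
    (ρ x).det ≠ 0 := (hρ.pos x hx).det_pos.ne'

theorem CMS2_GG (hρ : Q.hd.IsGauge (Q.thb θ) none ρ) {x : Q.CMU} (hx : x ∈ Q.hd.Xs (Q.thb θ)) :
    ρ x ∈ Q.GG := Q.CM_mem_GG.2 ⟨hρ.blk x hx, Q.CMS2_det hρ hx, hρ.one x hx⟩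

theorem CMS2_F_eq (hρ : Q.hd.IsGauge (Q.thb θ) none ρ) {p p' : Q.Arr × Q.Arr} (hp : p ∈ Q.Zss θ)
    {t : Q.CMT} (ht : t ∈ Q.FF) (h : Q.CMomk (Q.CMscl t p) = Q.CMomk p') (e : Fr (Fin Q.nT)) :
    Q.CMS2_F ρ (p', frAct t e) = Q.CMS2_F ρ (p, e) := by
  have hp' : p' ∈ Q.Zss θ := Q.CM_omk_mem.1 (h ▸ Q.CM_omk_mem.2 (Q.CM_scl_mem ht hp))
  obtain ⟨g, hg, hc⟩ := Q.CM_omk_eq_iff.1 h
  obtain ⟨hb, hd, h1⟩ := Q.CM_mem_GG.1 hg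
  have hx := (Q.CM_ex_mem hp).1
  have hx' := (Q.CM_ex_mem hp').1
  have c1 : ∀ h, p'.1 h * g = Q.chi (fun a => t a a) h • (g * p.1 h) := fun h => by
    rw [← (hc h).1]; exact Matrix.mul_smul _ _ _
  have c2 : ∀ h, p'.2 h * g = (Q.chi (fun a => t a a) h)⁻¹ • (g * p.2 h) := fun h => by
    rw [← (hc h).2]; exact Matrix.mul_smul _ _ _
  have hr : HD.CMRel g (Q.CMex p) (Q.CMex p') := by
    refine ⟨Sum.elim (fun h => Q.chi (fun a => t a a) h) fun h => (Q.chi (fun a => t a a) h)⁻¹,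
      ?_, ?_⟩
    · rintro (h | h)
      · exact Q.CM_norm_chi ht h
      · show ‖(Q.chi (fun a => t a a) h)⁻¹‖ = 1
        rw [norm_inv, Q.CM_norm_chi ht h, inv_one]
    · rintro (h | h)
      · exact c1 h
      · exact c2 h
  have hG : g ∈ Q.hd.CMG none := ⟨hb, hd, by rw [h1, norm_one]⟩
  have hu := hρ.unit _ hx _ hx' g hG hr
  have hκb : Q.hd.CMBlk (ρ (Q.CMex p') * g * (ρ (Q.CMex p))⁻¹) :=
    ((hρ.blk _ hx').mul hb).mul (hρ.blk _ hx).inv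
  have hκ1 : (ρ (Q.CMex p') * g * (ρ (Q.CMex p))⁻¹) none none = 1 := by
    rw [(((hρ.blk _ hx').mul hb).mul_single Q.CM_single _).1,
      ((hρ.blk _ hx').mul_single Q.CM_single _).1,
      (hρ.blk _ hx).inv_single Q.CM_single (Q.CMS2_det hρ hx), hρ.one _ hx, hρ.one _ hx', h1]
    simp
  obtain ⟨hU, hgau, hres⟩ := Q.CM_mkU_mem hu hκb hκ1 ht
  unfold CMS2_F
  rw [← bmk_bact hU (HD.CMcj (ρ (Q.CMex p)) (Q.CMex p), Q.CMext e)]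
  congr 1
  refine Prod.ext ?_ ?_
  · obtain ⟨a0, a1⟩ := Q.CM_act_apply hU (HD.CMcj (ρ (Q.CMex p)) (Q.CMex p))
    funext γ
    show HD.CMcj (ρ (Q.CMex p')) (Q.CMex p') γ = Q.hd.act _ _ γ
    rcases γ with _ | h | h
    · rw [a0]
      show ρ (Q.CMex p') * 0 * _ = _ * (ρ (Q.CMex p) * 0 * _) * _
      simp only [mul_zero, zero_mul]
    · rw [(a1 h).1, hgau, hres]
      exact (CMS2_alg (Q.CMS2_det hρ hx) hd hu (c1 h)).symm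
    · rw [(a1 h).2, hgau, hres]
      exact (CMS2_alg (Q.CMS2_det hρ hx) hd hu (c2 h)).symm
  · show Q.CMext (frAct t e) = frAct _ (Q.CMext e)
    rw [Q.CM_ext_frAct hU, hres]

theorem CMS2_s_bmk (hρ : Q.hd.IsGauge (Q.thb θ) none ρ) {p : Q.Arr × Q.Arr} (hp : p ∈ Q.Zss θ)
    (e : Fr (Fin Q.nT)) : Q.CMS2_s ρ (bmk Q.FF Q.actM (Q.CMomk p, e)) = Q.CMS2_F ρ (p, e) := by
  obtain ⟨t, ht, ho⟩ := Q.CM_isAct_actM.exists_out (Q.CMomk p, e)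
  unfold CMS2_s
  rw [ho]
  refine Q.CMS2_F_eq hρ hp ht ?_ e
  rw [Q.CM_omk_out, ← Q.CM_actM_omk]
  rfl

theorem CMS2_mem_BM {n : ℕ} {q : Q.YM} (hq : q ∈ Q.BM θ n) :
    ∃ p ∈ Q.Zss θ, ∃ e ∈ St (id : Fin Q.nT → Fin Q.nT) n, q = bmk Q.FF Q.actM (Q.CMomk p, e) := by
  obtain ⟨m, ⟨p, hp, rfl⟩, e, he, rfl⟩ := hq
  exact ⟨p, hp, e, he, rfl⟩

theorem CMS2_cont_N (hρ : Q.hd.IsGauge (Q.thb θ) none ρ) :
    ContinuousOn (fun x => HD.CMcj (ρ x) x) (Q.hd.Xs (Q.thb θ)) :=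
  CMS2_cj hρ.cont continuousOn_id fun _ hx => Q.CMS2_det hρ hx

theorem CMS2_cont_s (hρ : Q.hd.IsGauge (Q.thb θ) none ρ) (n : ℕ) :
    ContinuousOn (Q.CMS2_s ρ) (Q.BM θ n) := by
  have ho : IsOpenMap (bmk Q.FF Q.actM ∘ Prod.map Q.CMomk (id : Fr (Fin Q.nT) → _)) :=
    Q.CM_isAct_actM.isOpenMap_bmk.comp (Q.CM_isOpenMap_omk.prodMap IsOpenMap.id)
  refine Top_contOn ho (P := Q.Zss θ ×ˢ St id n) (F := Q.CMS2_F ρ) (fun q hq => ?_)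
    (fun a ha => ?_) (fun a ha => Q.CMS2_s_bmk hρ ha.1 a.2) ?_
  · obtain ⟨p, hp, e, he, rfl⟩ := Q.CMS2_mem_BM hq
    exact ⟨(p, e), ⟨hp, he⟩, rfl⟩
  · have h1 : bmk Q.FF Q.actM (Q.CMomk a.1, a.2) ∈ BI Q.FF Q.actM (Q.MM θ ×ˢ St id n) := by
      rw [← BS_eq]; exact ha
    have h2 := (Q.CM_isAct_actM.mem_BI
      (Inv.prod (Q.CM_invX_MM θ) (invF_St Subset.rfl n))).1 h1
    exact ⟨Q.CM_omk_mem.1 h2.1, h2.2⟩
  · refine continuous_bmk.comp_continuousOn (ContinuousOn.prodMk ?_ ?_)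
    · exact (Q.CMS2_cont_N hρ).comp (Q.CM_continuous_ex.comp continuous_fst).continuousOn
        fun a ha => (Q.CM_ex_mem ha.1).1
    · exact (Q.CM_continuous_ext.comp continuous_snd).continuousOn

/-- The segment from the unit matrix to the gauge. -/
def CMS2_m (ρ : Q.CMU → Q.Mat) (x : Q.CMU) (s : ℝ) : Q.Mat := (1 - s) • (1 : Q.Mat) + s • ρ x

theorem CMS2_hty (hρ : Q.hd.IsGauge (Q.thb θ) none ρ) (n : ℕ) :
    ∃ K : Bor Q.K3 Q.hd.act × ℝ → Bor Q.K3 Q.hd.act,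
      ContinuousOn K (BI Q.K3 Q.hd.act (Q.hd.Z0 (Q.thb θ) ×ˢ Q.CMEF n) ×ˢ Icc 0 1) ∧
      MapsTo K (BI Q.K3 Q.hd.act (Q.hd.Z0 (Q.thb θ) ×ˢ Q.CMEF n) ×ˢ Icc 0 1)
        (BI Q.K3 Q.hd.act (Q.hd.Z0 (Q.thb θ) ×ˢ Q.CMEF n)) ∧
      ∀ p ∈ Q.hd.Z0 (Q.thb θ) ×ˢ Q.CMEF n, ∀ s ∈ Icc (0 : ℝ) 1, K (bmk Q.K3 Q.hd.act p, s) =
        bmk Q.K3 Q.hd.act (HD.CMcj (Q.CMS2_m ρ p.1 s) p.1, p.2) := by
  refine Frames_hty Q.CM_isAct_K3 (Q.CM_inv_EF θ n)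
    (G := fun a => (HD.CMcj (Q.CMS2_m ρ a.1.1 a.2) a.1.1, a.1.2)) ?_ ?_ ?_
  · refine ContinuousOn.prodMk ?_ (continuous_snd.comp continuous_fst).continuousOn
    have h1 : ContinuousOn (fun a : (Q.CMU × Fr Q.HV) × ℝ => Q.CMS2_m ρ a.1.1 a.2)
        ((Q.hd.Z0 (Q.thb θ) ×ˢ Q.CMEF n) ×ˢ Icc 0 1) := by
      refine ContinuousOn.add ?_ (ContinuousOn.smul continuous_snd.continuousOn ?_)
      · exact ((continuous_const.sub continuous_snd).smul continuous_const).continuousOn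
      · exact hρ.cont.comp (continuous_fst.comp continuous_fst).continuousOn fun a ha => ha.1.1.1
    exact CMS2_cj h1 (continuous_fst.comp continuous_fst).continuousOn
      fun a ha => Frames_seg_det (hρ.pos _ ha.1.1.1) ha.2
  · rintro a ⟨⟨h1, h2⟩, h3⟩
    exact ⟨Q.hd.CM_cj_mem_Z0 ((Q.hd.CM_blk_one.smul _).add ((hρ.blk _ h1.1).smul _))
      (Frames_seg_det (hρ.pos _ h1.1) h3) h1, h2⟩
  · intro u hu p hp s _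
    obtain ⟨g1, g2, g3⟩ := Q.CM_gau_mem hu
    have hK := Q.CM_K3_subset hu
    have h1 : ρ (Q.hd.act u p.1) = HD.gau u * ρ p.1 * star (HD.gau u) :=
      hρ.conj _ hp.1.1 _ (Q.hd.invX_Xs _ u hK _ hp.1.1) _
        (Q.hd.CM_unit_mem Q.CM_single g2 g1) g1 (Q.hd.CM_act_rel hK _)
    have h2 : Q.CMS2_m ρ (Q.hd.act u p.1) s = HD.gau u * Q.CMS2_m ρ p.1 s * star (HD.gau u) := by
      unfold CMS2_m
      rw [h1, mul_add, add_mul, Matrix.mul_smul, Matrix.mul_smul, Matrix.smul_mul,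
        Matrix.smul_mul, mul_one, Matrix.mem_unitaryGroup_iff.1 g1]
    refine Prod.ext ?_ rfl
    show HD.CMcj (Q.CMS2_m ρ (Q.hd.act u p.1) s) (Q.hd.act u p.1) =
      Q.hd.act u (HD.CMcj (Q.CMS2_m ρ p.1 s) p.1)
    rw [h2, Q.hd.CM_act_cj hK]

end gauge

theorem CM_step2 {θ : Fin Q.nI → ℤ} (hθ : Q.Generic θ) (n : ℕ) (c : ℤ) :
    IsoBelow c Q.Phi (BS Q.K3 Q.hd.act (Q.hd.Z0 (Q.thb θ)) (Q.CMEF n)) (Q.BM θ n) := by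
  obtain ⟨ρ, hρ⟩ := Q.hd.CM_exists_gauge (Q.gen0 hθ)
  haveI := Q.CM_nice
  obtain ⟨K, k1, k2, k3⟩ := Q.CMS2_hty hρ n
  have hl := Q.CM_lc_EF θ n
  rw [BS_eq] at hl ⊢
  refine isoBelow_of_section c hl Q.CM_continuous_Phi.continuousOn ?_ (Q.CMS2_cont_s hρ n) ?_ ?_
    k1 k2 ?_ ?_
  · rintro _ ⟨⟨x, _⟩, ⟨hx, e, he, rfl⟩, rfl⟩
    rw [Q.CM_Phi_bmk]
    refine ⟨_, Q.CM_omk_mem.2 (Q.CM_prs_mem hx), e, he, ?_⟩
    show bmk _ _ (_, Q.CMres (Q.CMext e)) = _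
    rw [Q.CM_res_ext]
  · intro q hq
    obtain ⟨p, hp, e, he, rfl⟩ := Q.CMS2_mem_BM hq
    rw [Q.CMS2_s_bmk hρ hp]
    have hx := Q.CM_ex_mem hp
    exact ⟨_, ⟨Q.hd.CM_cj_mem_Z0 (hρ.blk _ hx.1) (Q.CMS2_det hρ hx.1) hx, e, he, rfl⟩, rfl⟩
  · intro q hq
    obtain ⟨p, hp, e, he, rfl⟩ := Q.CMS2_mem_BM hq
    rw [Q.CMS2_s_bmk hρ hp]
    unfold CMS2_F
    rw [Q.CM_Phi_bmk]
    show bmk _ _ (Q.CMomk (Q.CMprs (HD.CMcj _ _)), Q.CMres (Q.CMext e)) = _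
    rw [Q.CM_omk_cj (Q.CMS2_GG hρ (Q.CM_ex_mem hp).1), Q.CM_prs_ex, Q.CM_res_ext]
  · rintro _ ⟨p, hp, rfl⟩
    rw [k3 p hp 0 ⟨le_rfl, zero_le_one⟩]
    unfold CMS2_m
    rw [sub_zero, one_smul, zero_smul, add_zero, HD.CM_cj_one]
  · rintro _ ⟨⟨x, _⟩, ⟨hx, e, he, rfl⟩, rfl⟩
    rw [k3 _ ⟨hx, e, he, rfl⟩ 1 ⟨zero_le_one, le_rfl⟩, Q.CM_Phi_bmk]
    show _ = Q.CMS2_s ρ (bmk _ _ (Q.CMomk (Q.CMprs x), Q.CMres (Q.CMext e)))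
    rw [Q.CMS2_s_bmk hρ (Q.CM_prs_mem hx), Q.CM_res_ext]
    unfold CMS2_m CMS2_F
    rw [sub_self, zero_smul, one_smul, zero_add]
    show _ = bmk _ _ (HD.CMcj (ρ (Q.CMex (Q.CMprs x))) (Q.CMex (Q.CMprs x)), Q.CMext e)
    rw [Q.CM_ex_prs hx.2.2]

end Qv

end Pool.Agent.HK
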